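import Mathlib

/-!
# Power series of the iterated integrals of `dt / t`, `dt / (1 - t)`, `dt / (1 + t)` (helper867)
-/

set_option autoImplicit false

namespace Run7.h867.AM

open Finset Filter Topology

/-- the three letters: `z` for `dt / t`, `p` for `dt / (1 - t)`, `m` for `dt / (1 + t)` -/
inductive Lt | z | p | m
  deriving DecidableEq

instance : Fintype Lt := ⟨{Lt.z, Lt.p, Lt.m}, by intro x; cases x <;> simp⟩

/-- the coefficients of the power series of the iterated integral of a word (outermost letter first) -/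
noncomputable def co : List Lt → ℕ → ℝ
  | [], n => if n = 0 then 1 else 0
  | Lt.z :: u, n => co u n / n
  | Lt.p :: u, n => (∑ k ∈ range n, (1 : ℝ) ^ (n - 1 - k) * co u k) / n
  | Lt.m :: u, n => (∑ k ∈ range n, (-1 : ℝ) ^ (n - 1 - k) * co u k) / n

/-- the sign of a letter -/
def sn : Lt → ℝ
  | Lt.z => 0
  | Lt.p => 1
  | Lt.m => -1

/-- the density of a letter -/
noncomputable def ker : Lt → ℝ → ℝ
  | Lt.z, x => 1 / x
  | Lt.p, x => 1 / (1 - x)
  | Lt.m, x => 1 / (1 + x)

/-- words whose last letter is not `z` -/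
def Good : List Lt → Prop
  | [] => True
  | a :: u => (u = [] → a ≠ Lt.z) ∧ Good u

theorem co_cons_ne {a : Lt} (ha : a ≠ Lt.z) (u : List Lt) (n : ℕ) :
    co (a :: u) n = (∑ k ∈ range n, (sn a) ^ (n - 1 - k) * co u k) / n := by
  cases a with
  | z => exact absurd rfl ha
  | p => rfl
  | m => rfl

theorem sn_abs {a : Lt} (ha : a ≠ Lt.z) : |sn a| = 1 := by
  cases a with
  | z => exact absurd rfl ha
  | p => simp [sn]
  | m => simp [sn]

theorem co_zero {a : Lt} {u : List Lt} : co (a :: u) 0 = 0 := by
  cases a <;> simp [co]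

theorem abs_co_le (u : List Lt) : ∀ n, |co u n| ≤ 1 := by
  induction u with
  | nil =>
    intro n
    unfold co
    split_ifs <;> simp
  | cons a u ih =>
    intro n
    rcases Nat.eq_zero_or_pos n with h0 | h0
    · rw [h0, co_zero]; simp
    have hn : (1 : ℝ) ≤ n := by exact_mod_cast h0
    by_cases ha : a = Lt.z
    · subst ha
      show |co u n / n| ≤ 1
      rw [abs_div, div_le_one (by positivity), Nat.abs_cast]
      exact (ih n).trans hn
    · rw [co_cons_ne ha, abs_div, div_le_one (by positivity), Nat.abs_cast]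
      refine (abs_sum_le_sum_abs _ _).trans ?_
      calc ∑ k ∈ range n, |sn a ^ (n - 1 - k) * co u k| ≤ ∑ k ∈ range n, (1 : ℝ) := by
            refine sum_le_sum fun k _ => ?_
            rw [abs_mul, abs_pow, sn_abs ha, one_pow, one_mul]
            exact ih k
        _ = n := by simp

/-- the power series -/
noncomputable def F (u : List Lt) (x : ℝ) : ℝ := ∑' n, co u n * x ^ n

theorem summable_co (u : List Lt) {x : ℝ} (hx : |x| < 1) : Summable fun n => co u n * x ^ n := by
  refine Summable.of_norm_bounded (g := fun n => |x| ^ n) (summable_geometric_of_lt_one (abs_nonneg _) hx) ?_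
  intro n
  rw [Real.norm_eq_abs, abs_mul, abs_pow]
  exact mul_le_of_le_one_left (by positivity) (abs_co_le u n)

theorem F_zero {a : Lt} {u : List Lt} : F (a :: u) 0 = 0 := by
  unfold F
  rw [tsum_eq_single 0]
  · rw [co_zero]; simp
  · intro n hn
    simp [hn]

theorem F_nil (x : ℝ) : F [] x = 1 := by
  unfold F
  rw [tsum_eq_single 0]
  · simp [co]
  · intro n hn
    simp [co, hn]

theorem hasDeriv (u : List Lt) {x : ℝ} (hx : |x| < 1) :
    HasDerivAt (F u) (∑' n, co u n * (n * x ^ (n - 1))) x := by
  obtain ⟨r, hr1, hr2⟩ := exists_between hx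
  have hr0 : 0 ≤ r := (abs_nonneg x).trans hr1.le
  have hs : Summable fun n : ℕ => (n : ℝ) * r ^ (n - 1) := by
    have h1 := summable_pow_mul_geometric_of_norm_lt_one (R := ℝ) 1 (r := r) (by
      rw [Real.norm_eq_abs, abs_of_nonneg hr0]; exact hr2)
    rcases hr0.eq_or_lt with h0 | h0
    · refine summable_of_hasFiniteSupport ?_
      refine (Set.finite_Iio 2).subset ?_
      intro n hn
      rw [Function.mem_support] at hn
      by_contra hcon
      rw [Set.mem_Iio, not_lt] at hcon
      apply hn
      rw [← h0, zero_pow (by omega), mul_zero]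
    · have h2 := h1.mul_left r⁻¹
      refine h2.congr fun n => ?_
      rcases Nat.eq_zero_or_pos n with hn | hn
      · subst hn; simp
      · obtain ⟨k, rfl⟩ : ∃ k, n = k + 1 := ⟨n - 1, by omega⟩
        rw [Nat.add_sub_cancel, pow_succ]
        field_simp
        ring
  have := hasDerivAt_tsum_of_isPreconnected (𝕜 := ℝ) (g := fun n y => co u n * y ^ n)
    (g' := fun n y => co u n * (n * y ^ (n - 1))) (u := fun n : ℕ => (n : ℝ) * r ^ (n - 1))
    (t := Metric.ball 0 r) hs Metric.isOpen_ball
    ((convex_ball (0 : ℝ) r).isPreconnected) (fun n y _ => (hasDerivAt_pow n y).const_mul _) ?_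
    (y₀ := x) (y := x) ?_ ?_ ?_
  · exact this
  · intro n y hy
    rw [mem_ball_zero_iff, Real.norm_eq_abs] at hy
    rw [Real.norm_eq_abs, abs_mul, abs_mul, Nat.abs_cast, abs_pow]
    calc |co u n| * (n * |y| ^ (n - 1)) ≤ 1 * (n * r ^ (n - 1)) := by
          gcongr
          exact abs_co_le u n
      _ = _ := one_mul _
  · rw [mem_ball_zero_iff, Real.norm_eq_abs]; exact hr1
  · exact summable_co u hx
  · rw [mem_ball_zero_iff, Real.norm_eq_abs]; exact hr1

/-- the derivative is the density times the series of the shorter word -/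
theorem deriv_eq {a : Lt} {u : List Lt} (hg : Good (a :: u)) {x : ℝ} (hx0 : 0 < x) (hx1 : x < 1) :
    ∑' n, co (a :: u) n * (n * x ^ (n - 1)) = ker a x * F u x := by
  have hx : |x| < 1 := by rw [abs_of_pos hx0]; exact hx1
  by_cases ha : a = Lt.z
  · subst ha
    have hu : co u 0 = 0 := by
      cases u with
      | nil => exact absurd rfl (hg.1 rfl)
      | cons b v => exact co_zero
    unfold F
    show _ = 1 / x * _
    rw [← tsum_mul_left]
    refine tsum_congr fun n => ?_
    show co u n / n * _ = _
    rcases Nat.eq_zero_or_pos n with hn | hn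
    · subst hn; rw [hu]; simp
    · obtain ⟨k, rfl⟩ : ∃ k, n = k + 1 := ⟨n - 1, by omega⟩
      have : ((k + 1 : ℕ) : ℝ) ≠ 0 := by positivity
      rw [Nat.add_sub_cancel, pow_succ]
      field_simp
  · have h1 : ∑' n, co (a :: u) n * (n * x ^ (n - 1)) =
        ∑' j, ∑ k ∈ range (j + 1), (co u k * x ^ k) * (sn a * x) ^ (j - k) := by
      have hsum : Summable fun n => co (a :: u) n * (n * x ^ (n - 1)) := by
        have := (hasDeriv (a :: u) hx)
        -- summability from the norm bound
        refine Summable.of_norm_bounded (g := fun n : ℕ => (n : ℝ) * x ^ (n - 1)) ?_ ?_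
        · have h1 := summable_pow_mul_geometric_of_norm_lt_one (R := ℝ) 1 (r := x) (by
            rw [Real.norm_eq_abs]; exact hx)
          have h2 := h1.mul_left x⁻¹
          refine h2.congr fun n => ?_
          rcases Nat.eq_zero_or_pos n with hn | hn
          · subst hn; simp
          · obtain ⟨k, rfl⟩ : ∃ k, n = k + 1 := ⟨n - 1, by omega⟩
            rw [Nat.add_sub_cancel, pow_succ]
            field_simp
            ring
        · intro n
          rw [Real.norm_eq_abs, abs_mul, abs_mul, Nat.abs_cast, abs_pow, abs_of_pos hx0]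
          exact mul_le_of_le_one_left (by positivity) (abs_co_le _ n)
      rw [hsum.tsum_eq_zero_add]
      simp only [CharP.cast_eq_zero, zero_mul, mul_zero, zero_add]
      refine tsum_congr fun j => ?_
      rw [co_cons_ne ha]
      have hj : ((j + 1 : ℕ) : ℝ) ≠ 0 := by positivity
      rw [Nat.add_sub_cancel, show ∀ S : ℝ, S / ((j + 1 : ℕ) : ℝ) * (((j + 1 : ℕ) : ℝ) * x ^ j) = S * x ^ j by
        intro S; field_simp, sum_mul]
      refine sum_congr rfl fun k hk => ?_
      have hk' : k ≤ j := by rw [mem_range] at hk; omega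
      rw [mul_pow]
      have : x ^ j = x ^ k * x ^ (j - k) := by rw [← pow_add]; congr 1; omega
      rw [this]
      ring
    rw [h1]
    have hsx : |sn a * x| < 1 := by rw [abs_mul, sn_abs ha, one_mul]; exact hx
    have h2 := tsum_mul_tsum_eq_tsum_sum_range_of_summable_norm (f := fun k => co u k * x ^ k)
      (g := fun i => (sn a * x) ^ i) (summable_co u hx).norm
      (summable_geometric_of_abs_lt_one hsx).norm
    rw [← h2, tsum_geometric_of_abs_lt_one hsx]
    have h3 : (1 - sn a * x)⁻¹ = ker a x := by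
      cases a with
      | z => exact absurd rfl ha
      | p => simp [sn, ker]
      | m => simp [sn, ker]
    rw [h3, mul_comm]
    rfl

theorem ker_pos (a : Lt) {x : ℝ} (hx0 : 0 < x) (hx1 : x < 1) : 0 < ker a x := by
  cases a with
  | z => unfold ker; positivity
  | p => unfold ker; exact one_div_pos.2 (by linarith)
  | m => unfold ker; positivity

theorem nonneg_of_deriv {G G' : ℝ → ℝ} (h : ∀ x, |x| < 1 → HasDerivAt G (G' x) x) (h0 : G 0 = 0)
    (hp : ∀ x, 0 < x → x < 1 → 0 ≤ G' x) : ∀ x, 0 ≤ x → x < 1 → 0 ≤ G x := by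
  intro x hx0 hx1
  have hm : MonotoneOn G (Set.Ico 0 1) := by
    refine monotoneOn_of_deriv_nonneg (convex_Ico 0 1) ?_ ?_ ?_
    · intro y hy
      exact (h y (by rw [abs_of_nonneg hy.1]; exact hy.2)).continuousAt.continuousWithinAt
    · intro y hy
      rw [interior_Ico] at hy
      exact (h y (by rw [abs_of_pos hy.1]; exact hy.2)).differentiableAt.differentiableWithinAt
    · intro y hy
      rw [interior_Ico] at hy
      rw [(h y (by rw [abs_of_pos hy.1]; exact hy.2)).deriv]
      exact hp y hy.1 hy.2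
  have := hm (a := 0) (b := x) ⟨le_rfl, one_pos⟩ ⟨hx0, hx1⟩ hx0
  rw [h0] at this
  exact this

theorem F_strict {a : Lt} {u : List Lt} (hg : Good (a :: u)) (hu : ∀ x, 0 < x → x < 1 → 0 < F u x) :
    StrictMonoOn (F (a :: u)) (Set.Ico 0 1) := by
  refine strictMonoOn_of_deriv_pos (convex_Ico 0 1) ?_ ?_
  · intro y hy
    exact (hasDeriv _ (by rw [abs_of_nonneg hy.1]; exact hy.2)).continuousAt.continuousWithinAt
  · intro y hy
    rw [interior_Ico] at hy
    rw [(hasDeriv _ (by rw [abs_of_pos hy.1]; exact hy.2)).deriv, deriv_eq hg hy.1 hy.2]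
    exact mul_pos (ker_pos a hy.1 hy.2) (hu y hy.1 hy.2)

theorem F_pos {u : List Lt} (hg : Good u) : ∀ x, 0 < x → x < 1 → 0 < F u x := by
  induction u with
  | nil => intro x _ _; rw [F_nil]; exact one_pos
  | cons a u ih =>
    intro x hx0 hx1
    have h0 : (0 : ℝ) ∈ Set.Ico (0 : ℝ) 1 := ⟨le_rfl, one_pos⟩
    have h1 : x ∈ Set.Ico (0 : ℝ) 1 := ⟨hx0.le, hx1⟩
    have h2 := F_strict hg (ih hg.2) h0 h1 hx0
    rw [F_zero] at h2
    exact h2

theorem F_nonneg {u : List Lt} (hg : Good u) {x : ℝ} (hx0 : 0 ≤ x) (hx1 : x < 1) : 0 ≤ F u x := by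
  rcases hx0.eq_or_lt with h | h
  · rw [← h]
    cases u with
    | nil => rw [F_nil]; exact zero_le_one
    | cons a u => rw [F_zero]
  · exact (F_pos hg x h hx1).le

/-- one may change `m` into `z` -/
def Rz (a b : Lt) : Prop := a = b ∨ (a = Lt.m ∧ b = Lt.z)

/-- the comparison: changing a letter `m` into `z` at least doubles the integral -/
theorem compare {u v : List Lt} (h : List.Forall₂ Rz u v) : Good u → Good v →
    ∀ x, 0 ≤ x → x < 1 → F u x ≤ F v x ∧ (u ≠ v → 2 * F u x ≤ F v x) := by
  induction h with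
  | nil => intro _ _ x _ _; exact ⟨le_rfl, fun h => absurd rfl h⟩
  | @cons a b u v hab huv ih =>
    intro hu hv
    have ih' := ih hu.2 hv.2
    -- a general comparison of derivatives
    have key : ∀ c : ℝ, (∀ x, 0 < x → x < 1 → c * (ker a x * F u x) ≤ ker b x * F v x) →
        ∀ x, 0 ≤ x → x < 1 → c * F (a :: u) x ≤ F (b :: v) x := by
      intro c hc x hx0 hx1
      have := nonneg_of_deriv (G := fun y => F (b :: v) y - c * F (a :: u) y)
        (G' := fun y => (∑' n, co (b :: v) n * (n * y ^ (n - 1))) - c * ∑' n, co (a :: u) n * (n * y ^ (n - 1)))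
        (fun y hy => (hasDeriv _ hy).sub ((hasDeriv _ hy).const_mul c)) (by simp only [F_zero]; ring)
        (fun y hy0 hy1 => by
          rw [deriv_eq hv hy0 hy1, deriv_eq hu hy0 hy1]
          have := hc y hy0 hy1
          linarith) x hx0 hx1
      linarith
    intro x hx0 hx1
    rcases hab with hab | ⟨ha, hb⟩
    · subst hab
      refine ⟨?_, fun hne => ?_⟩
      · have := key 1 (fun y hy0 hy1 => by
          rw [one_mul]
          exact mul_le_mul_of_nonneg_left (ih' y hy0.le hy1).1 (ker_pos a hy0 hy1).le) x hx0 hx1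
        linarith
      · have hne' : u ≠ v := fun h => hne (by rw [h])
        refine key 2 (fun y hy0 hy1 => ?_) x hx0 hx1
        have h1 := (ih' y hy0.le hy1).2 hne'
        have h2 := ker_pos a hy0 hy1
        nlinarith
    · subst ha hb
      have h2 : ∀ y, 0 < y → y < 1 → 2 * (ker Lt.m y * F u y) ≤ ker Lt.z y * F v y := by
        intro y hy0 hy1
        have h1 := (ih' y hy0.le hy1).1
        have h3 := F_nonneg hu.2 hy0.le hy1
        have h4 : 2 * ker Lt.m y ≤ ker Lt.z y := by
          unfold ker
          rw [mul_one_div, div_le_div_iff₀ (by positivity) hy0]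
          linarith
        calc 2 * (ker Lt.m y * F u y) = (2 * ker Lt.m y) * F u y := by ring
          _ ≤ ker Lt.z y * F u y := mul_le_mul_of_nonneg_right h4 h3
          _ ≤ ker Lt.z y * F v y := mul_le_mul_of_nonneg_left h1 (ker_pos _ hy0 hy1).le
      have h5 := key 2 h2 x hx0 hx1
      refine ⟨?_, fun _ => h5⟩
      have := F_nonneg hu hx0 hx1
      linarith

end Run7.h867.AM
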