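import Mathlib
import Pool.Agent.Run7.h867.AM.Series

/-!
# Convergence of the series at `1`, the limit values and their comparison (helper867)
-/

set_option autoImplicit false

namespace Run7.h867.AM

open Finset Filter Topology

theorem sum_inv_sqrt (n : ℕ) : ∑ k ∈ Finset.Icc 1 n, 1 / √(k : ℝ) ≤ 2 * √(n : ℝ) := by
  induction n with
  | zero => simp
  | succ n ih =>
    rw [Finset.sum_Icc_succ_top (by omega)]
    have h1 : 0 < √((n + 1 : ℕ) : ℝ) := Real.sqrt_pos.2 (by positivity)
    have h2 : √(n : ℝ) ≤ √((n + 1 : ℕ) : ℝ) := Real.sqrt_le_sqrt (by push_cast; linarith)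
    have h3 : √((n + 1 : ℕ) : ℝ) ^ 2 = n + 1 := by rw [Real.sq_sqrt (by positivity)]; push_cast; ring
    have h4 : √(n : ℝ) ^ 2 = n := Real.sq_sqrt (by positivity)
    have h5 : 1 / √((n + 1 : ℕ) : ℝ) ≤ 2 * √((n + 1 : ℕ) : ℝ) - 2 * √(n : ℝ) := by
      rw [div_le_iff₀ h1]
      nlinarith [sq_nonneg (√((n + 1 : ℕ) : ℝ) - √(n : ℝ))]
    linarith

/-- the coefficients are `O(n ^ (-1/2))`, with the partial sums -/
theorem bound (u : List Lt) : ∃ C : ℝ, 0 ≤ C ∧ (∀ n : ℕ, 1 ≤ n → |co u n| ≤ C / √n) ∧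
    ∀ n : ℕ, 1 ≤ n → ∑ k ∈ range n, |co u k| ≤ (1 + 2 * C) * √n := by
  have step : ∀ (v : List Lt) (C : ℝ), 0 ≤ C → (∀ n : ℕ, 1 ≤ n → |co v n| ≤ C / √n) →
      ∀ n : ℕ, 1 ≤ n → ∑ k ∈ range n, |co v k| ≤ (1 + 2 * C) * √n := by
    intro v C hC h n hn
    have h1 : ∑ k ∈ range n, |co v k| ≤ 1 + ∑ k ∈ Finset.Icc 1 n, C * (1 / √(k : ℝ)) := by
      obtain ⟨m, rfl⟩ : ∃ m, n = m + 1 := ⟨n - 1, by omega⟩
      rw [Finset.sum_range_succ' (fun k => |co v k|) m, add_comm]
      refine add_le_add (abs_co_le v 0) ?_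
      rw [Finset.range_eq_Ico, Finset.sum_Ico_add' (fun k => |co v k|) 0 m 1]
      refine (Finset.sum_le_sum fun k hk => ?_).trans
        (Finset.sum_le_sum_of_subset_of_nonneg (t := Finset.Icc 1 (m + 1)) ?_ ?_)
      · rw [Finset.mem_Ico] at hk
        have := h k (by omega)
        rw [mul_one_div]
        exact this
      · intro k hk
        rw [Finset.mem_Ico] at hk
        rw [Finset.mem_Icc]
        omega
      · intro k _ _
        positivity
    rw [← Finset.mul_sum] at h1
    have h2 := sum_inv_sqrt n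
    have h3 : (1 : ℝ) ≤ √n := Real.one_le_sqrt.2 (by exact_mod_cast hn)
    nlinarith
  induction u with
  | nil =>
    refine ⟨0, le_rfl, fun n hn => ?_, step [] 0 le_rfl fun n hn => ?_⟩ <;>
    · unfold co
      rw [if_neg (by omega)]
      simp
  | cons a u ih =>
    obtain ⟨C, hC, h1, h2⟩ := ih
    have h3 : ∀ n : ℕ, 1 ≤ n → |co (a :: u) n| ≤ (1 + 2 * C) / √n := by
      intro n hn
      have hn' : (1 : ℝ) ≤ n := by exact_mod_cast hn
      have hs : (1 : ℝ) ≤ √n := Real.one_le_sqrt.2 hn'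
      have hs2 : √(n : ℝ) * √n = n := Real.mul_self_sqrt (by positivity)
      by_cases ha : a = Lt.z
      · subst ha
        show |co u n / n| ≤ _
        rw [abs_div, Nat.abs_cast]
        calc |co u n| / n ≤ |co u n| / 1 := by gcongr
          _ = |co u n| := div_one _
          _ ≤ C / √n := h1 n hn
          _ ≤ (1 + 2 * C) / √n := by gcongr; linarith
      · rw [co_cons_ne ha, abs_div, Nat.abs_cast, div_le_div_iff₀ (by positivity) (by positivity)]
        have h4 : |∑ k ∈ range n, sn a ^ (n - 1 - k) * co u k| ≤ (1 + 2 * C) * √n := by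
          refine (abs_sum_le_sum_abs _ _).trans (le_trans (le_of_eq ?_) (h2 n hn))
          refine sum_congr rfl fun k _ => ?_
          rw [abs_mul, abs_pow, sn_abs ha, one_pow, one_mul]
        calc |∑ k ∈ range n, sn a ^ (n - 1 - k) * co u k| * √n ≤ (1 + 2 * C) * √n * √n := by gcongr
          _ = (1 + 2 * C) * n := by rw [mul_assoc, hs2]
    exact ⟨1 + 2 * C, by positivity, h3, step _ _ (by positivity) h3⟩

theorem summable_three_half (C : ℝ) : Summable fun n : ℕ => C / ((n : ℝ) * √n) := by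
  have h1 : Summable fun n : ℕ => 1 / (n : ℝ) ^ (3 / 2 : ℝ) :=
    Real.summable_one_div_nat_rpow.2 (by norm_num)
  have h2 := h1.mul_left C
  refine h2.congr fun n => ?_
  rcases Nat.eq_zero_or_pos n with h0 | h0
  · subst h0
    simp
  have hn : (0 : ℝ) < n := by exact_mod_cast h0
  rw [mul_one_div]
  congr 1
  rw [show (3 / 2 : ℝ) = 1 + 1 / 2 by norm_num, Real.rpow_add hn, Real.rpow_one, Real.sqrt_eq_rpow]

/-- the series of an admissible word converges at `1` -/
theorem conv {a : Lt} {u : List Lt} (ha : a ≠ Lt.p) :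
    ∃ v : ℝ, Tendsto (fun N => ∑ n ∈ range N, co (a :: u) n) atTop (𝓝 v) := by
  obtain ⟨C, hC, h1, h2⟩ := bound u
  cases a with
  | p => exact absurd rfl ha
  | z =>
    have hs : Summable fun n => co (Lt.z :: u) n := by
      refine Summable.of_norm_bounded (summable_three_half C) ?_
      intro n
      rw [Real.norm_eq_abs]
      rcases Nat.eq_zero_or_pos n with h0 | h0
      · subst h0
        rw [co_zero]
        simp
      · show |co u n / n| ≤ _
        have hn : (0 : ℝ) < n := by exact_mod_cast h0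
        rw [abs_div, Nat.abs_cast, mul_comm, ← div_div]
        gcongr
        exact h1 n h0
    exact ⟨_, hs.hasSum.tendsto_sum_nat⟩
  | m =>
    -- `co n = (-1) ^ (n + 1) b n`
    obtain ⟨T, hT⟩ : ∃ T : ℕ → ℝ, T = fun n => ∑ k ∈ range n, (-1 : ℝ) ^ k * co u k := ⟨_, rfl⟩
    obtain ⟨b, hb⟩ : ∃ b : ℕ → ℝ, b = fun n => T n / n := ⟨_, rfl⟩
    have hco : ∀ n, co (Lt.m :: u) n = - ((-1) ^ n * b n) := by
      intro n
      rcases Nat.eq_zero_or_pos n with h0 | h0
      · subst h0
        rw [co_zero, hb]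
        simp
      rw [hb, hT]
      show (∑ k ∈ range n, (-1 : ℝ) ^ (n - 1 - k) * co u k) / n = _
      rw [mul_div_assoc', ← neg_div, Finset.mul_sum, ← Finset.sum_neg_distrib]
      congr 1
      refine sum_congr rfl fun k hk => ?_
      rw [mem_range] at hk
      have e1 : (-1 : ℝ) ^ n = (-1) ^ (n - 1 - k) * (-1) ^ k * (-1) := by
        rw [← pow_add, ← pow_succ]
        congr 1
        omega
      have e2 : (-1 : ℝ) ^ k * (-1) ^ k = 1 := by
        rw [← mul_pow]; norm_num
      rw [e1]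
      calc (-1 : ℝ) ^ (n - 1 - k) * co u k = (-1 : ℝ) ^ (n - 1 - k) * ((-1) ^ k * (-1) ^ k) * co u k := by
            rw [e2, mul_one]
        _ = _ := by ring
    have hTb : ∀ n : ℕ, 1 ≤ n → |T n| ≤ (1 + 2 * C) * √n := by
      intro n hn
      rw [hT]
      refine (abs_sum_le_sum_abs _ _).trans (le_trans (le_of_eq ?_) (h2 n hn))
      refine sum_congr rfl fun k _ => ?_
      rw [abs_mul, abs_pow, abs_neg, abs_one, one_pow, one_mul]
    have hb0 : Tendsto b atTop (𝓝 0) := by
      have h3 : Tendsto (fun n : ℕ => (1 + 2 * C) / √(n : ℝ)) atTop (𝓝 0) := by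
        refine Tendsto.div_atTop tendsto_const_nhds ?_
        exact Real.tendsto_sqrt_atTop.comp tendsto_natCast_atTop_atTop
      refine squeeze_zero_norm' ?_ h3
      filter_upwards [eventually_ge_atTop 1] with n hn
      have hn' : (0 : ℝ) < n := by exact_mod_cast hn
      have hs0 : 0 < √(n : ℝ) := Real.sqrt_pos.2 hn'
      rw [hb, Real.norm_eq_abs, abs_div, Nat.abs_cast, div_le_div_iff₀ hn' hs0]
      calc |T n| * √n ≤ (1 + 2 * C) * √n * √n := by gcongr; exact hTb n hn
        _ = (1 + 2 * C) * n := by rw [mul_assoc, Real.mul_self_sqrt hn'.le]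
    have hd : Summable fun n => b n - b (n + 1) := by
      refine Summable.of_norm_bounded_eventually_nat (summable_three_half (1 + 3 * C)) ?_
      filter_upwards [eventually_ge_atTop 1] with n hn
      have hn' : (0 : ℝ) < n := by exact_mod_cast hn
      have hs0 : 0 < √(n : ℝ) := Real.sqrt_pos.2 hn'
      have hss : √(n : ℝ) * √n = n := Real.mul_self_sqrt hn'.le
      have e1 : b n - b (n + 1) = T n / (n * (n + 1)) - (-1) ^ n * co u n / (n + 1) := by
        have : T (n + 1) = T n + (-1) ^ n * co u n := by rw [hT]; simp only; rw [sum_range_succ]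
        rw [hb]
        simp only
        rw [this]
        push_cast
        field_simp
        ring
      rw [Real.norm_eq_abs, e1]
      calc |T n / (n * (n + 1)) - (-1) ^ n * co u n / (n + 1)|
          ≤ |T n / (n * (n + 1))| + |(-1) ^ n * co u n / (n + 1)| := abs_sub _ _
        _ = |T n| / (n * (n + 1)) + |co u n| / (n + 1) := by
            rw [abs_div, abs_div, abs_of_pos (by positivity : (0 : ℝ) < n * (n + 1)),
              abs_of_pos (by positivity : (0 : ℝ) < n + 1), abs_mul, abs_pow, abs_neg, abs_one, one_pow, one_mul]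
        _ ≤ ((1 + 2 * C) * √n) / (n * n) + (C / √n) / n := by
            gcongr
            · exact hTb n hn
            · linarith
            · exact h1 n hn
            · linarith
        _ = (1 + 3 * C) / (n * √n) := by
            rw [show (n : ℝ) * n = n * (√n * √n) by rw [hss]]
            field_simp
            ring
    -- summation
    have hid : ∀ N, ∑ n ∈ range N, co (Lt.m :: u) n =
        -(1 / 2 * (b 0 - (-1) ^ N * b N) + 1 / 2 * ∑ n ∈ range N, (-1) ^ n * (b n - b (n + 1))) := by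
      intro N
      induction N with
      | zero => simp
      | succ N ih =>
        rw [sum_range_succ, ih, sum_range_succ, hco N, pow_succ]
        ring
    have hsd : Summable fun n => (-1 : ℝ) ^ n * (b n - b (n + 1)) := by
      refine Summable.of_norm ?_
      refine hd.norm.congr fun n => ?_
      rw [norm_mul, norm_pow, norm_neg, norm_one, one_pow, one_mul]
    have hlim1 : Tendsto (fun N : ℕ => (-1 : ℝ) ^ N * b N) atTop (𝓝 0) := by
      refine squeeze_zero_norm (fun N => ?_) (hb0.norm.trans (by rw [norm_zero]))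
      rw [norm_mul, norm_pow, norm_neg, norm_one, one_pow, one_mul]
    refine ⟨-(1 / 2 * (b 0 - 0) + 1 / 2 * ∑' n, (-1 : ℝ) ^ n * (b n - b (n + 1))), ?_⟩
    simp only [hid]
    exact (((tendsto_const_nhds.sub hlim1).const_mul _).add (hsd.hasSum.tendsto_sum_nat.const_mul _)).neg

/-- the value at `1` -/
noncomputable def V (u : List Lt) : ℝ := limUnder atTop fun N => ∑ n ∈ range N, co u n

theorem V_tendsto {a : Lt} {u : List Lt} (ha : a ≠ Lt.p) :
    Tendsto (fun N => ∑ n ∈ range N, co (a :: u) n) atTop (𝓝 (V (a :: u))) :=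
  tendsto_nhds_limUnder (conv ha)

theorem F_tendsto {a : Lt} {u : List Lt} (ha : a ≠ Lt.p) :
    Tendsto (F (a :: u)) (𝓝[<] 1) (𝓝 (V (a :: u))) :=
  Real.tendsto_tsum_powerSeries_nhdsWithin_lt (V_tendsto ha)

theorem ev_near : ∀ᶠ x : ℝ in 𝓝[<] 1, 1 / 2 ≤ x ∧ x < 1 := by
  have h1 : Set.Ico (1 / 2 : ℝ) 1 ∈ 𝓝[<] (1 : ℝ) := Ico_mem_nhdsLT (by norm_num)
  filter_upwards [h1] with x hx
  exact hx

theorem V_pos {a : Lt} {u : List Lt} (ha : a ≠ Lt.p) (hg : Good (a :: u)) : 0 < V (a :: u) := by
  have h1 : 0 < F (a :: u) (1 / 2) := F_pos hg _ (by norm_num) (by norm_num)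
  refine h1.trans_le (ge_of_tendsto (F_tendsto ha) ?_)
  filter_upwards [ev_near] with x hx
  exact (F_strict hg (F_pos hg.2)).monotoneOn (a := 1 / 2) (b := x) ⟨by norm_num, by norm_num⟩
    ⟨by linarith [hx.1], hx.2⟩ hx.1

/-- changing a letter `m` into `z` at least doubles the value -/
theorem V_double {a b : Lt} {u v : List Lt} (ha : a ≠ Lt.p) (hb : b ≠ Lt.p)
    (h : List.Forall₂ Rz (a :: u) (b :: v)) (hu : Good (a :: u)) (hv : Good (b :: v))
    (hne : a :: u ≠ b :: v) : 2 * V (a :: u) ≤ V (b :: v) := by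
  refine le_of_tendsto_of_tendsto ((F_tendsto ha).const_mul 2) (F_tendsto hb) ?_
  filter_upwards [ev_near] with x hx
  exact (compare h hu hv x (by linarith [hx.1]) hx.2).2 hne

end Run7.h867.AM
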