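import Mathlib
import Pool.Agent.Run7.h867.AM.Conv

/-!
# Indices of alternating multiple zeta values and words (helper867)
-/

set_option autoImplicit false

namespace Run7.h867.AM

open Finset Filter Topology

/-- the index `(a_1, ..., a_r)`, `(z_1, ..., z_r)` as the list of the pairs `(a_j, z_j)` -/
abbrev Ix := List (ℕ × ℤ)

/-- the sum of `∏ z_j ^ l_j / l_j ^ a_j` over `m > l_1 > ... > l_r ≥ 1` -/
noncomputable def trunc : Ix → ℕ → ℝ
  | [], _ => 1
  | x :: l, m => ∑ j ∈ Finset.Ico 1 m, (x.2 : ℝ) ^ j / (j : ℝ) ^ x.1 * trunc l j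

/-- the value of the alternating multiple zeta value -/
noncomputable def val (l : Ix) : ℝ := limUnder atTop (trunc l)

def Valid (l : Ix) : Prop := ∀ x ∈ l, 1 ≤ x.1 ∧ (x.2 = 1 ∨ x.2 = -1)

def weight (l : Ix) : ℕ := (l.map Prod.fst).sum

/-- the indices of weight `w` of the alternating multiple zeta values -/
def gens (w : ℕ) : Set Ix := {l | l ≠ [] ∧ Valid l ∧ l.head? ≠ some (1, 1) ∧ weight l = w}

/-- letter of a sign -/
def lt (s : ℤ) : Lt := if s = 1 then Lt.p else Lt.m

def wd : ℤ → Ix → List Lt
  | _, [] => []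
  | s, x :: l => List.replicate (x.1 - 1) Lt.z ++ lt (s * x.2) :: wd (s * x.2) l

def ix : ℤ → ℕ → List Lt → Ix
  | _, _, [] => []
  | s, k, Lt.z :: u => ix s (k + 1) u
  | s, k, Lt.p :: u => (k + 1, s) :: ix 1 0 u
  | s, k, Lt.m :: u => (k + 1, -s) :: ix (-1) 0 u

theorem ix_valid (u : List Lt) : ∀ (s : ℤ) (k : ℕ), s = 1 ∨ s = -1 → Valid (ix s k u) := by
  induction u with
  | nil => intro s k _ x hx; simp [ix] at hx
  | cons a u ih =>
    intro s k hs
    cases a with
    | z => exact ih s (k + 1) hs
    | p =>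
      intro x hx
      rcases List.mem_cons.1 hx with h | h
      · subst h; exact ⟨by simp, hs⟩
      · exact ih 1 0 (Or.inl rfl) x h
    | m =>
      intro x hx
      rcases List.mem_cons.1 hx with h | h
      · subst h
        refine ⟨by simp, ?_⟩
        rcases hs with h | h <;> simp [h]
      · exact ih (-1) 0 (Or.inr rfl) x h

theorem ix_weight (u : List Lt) : ∀ (s : ℤ) (k : ℕ), Good u → u ≠ [] → weight (ix s k u) = k + u.length := by
  induction u with
  | nil => intro s k _ h; exact absurd rfl h
  | cons a u ih =>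
    intro s k hg _
    have hrest : ∀ s', weight (ix s' 0 u) = u.length := by
      intro s'
      by_cases hu : u = []
      · subst hu; simp [ix, weight]
      · rw [ih s' 0 hg.2 hu]; simp
    cases a with
    | z =>
      have hu : u ≠ [] := fun h => hg.1 h rfl
      show weight (ix s (k + 1) u) = _
      rw [ih s (k + 1) hg.2 hu, List.length_cons]
      omega
    | p =>
      have := hrest 1
      unfold weight at this ⊢
      rw [ix, List.map_cons, List.sum_cons, this, List.length_cons]
      simp only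
      omega
    | m =>
      have := hrest (-1)
      unfold weight at this ⊢
      rw [ix, List.map_cons, List.sum_cons, this, List.length_cons]
      simp only
      omega

theorem replicate_cons_append (k : ℕ) (u : List Lt) :
    List.replicate k Lt.z ++ Lt.z :: u = List.replicate (k + 1) Lt.z ++ u := by
  rw [List.replicate_succ', List.append_assoc]
  rfl

theorem wd_ix (u : List Lt) : ∀ (s : ℤ) (k : ℕ), s = 1 ∨ s = -1 → Good u → u ≠ [] →
    wd s (ix s k u) = List.replicate k Lt.z ++ u := by
  induction u with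
  | nil => intro s k _ _ h; exact absurd rfl h
  | cons a u ih =>
    intro s k hs hg _
    have hrest : ∀ s', (s' = 1 ∨ s' = -1) → wd s' (ix s' 0 u) = u := by
      intro s' hs'
      by_cases hu : u = []
      · subst hu; simp [ix, wd]
      · rw [ih s' 0 hs' hg.2 hu]; simp
    cases a with
    | z =>
      have hu : u ≠ [] := fun h => hg.1 h rfl
      show wd s (ix s (k + 1) u) = _
      rw [ih s (k + 1) hs hg.2 hu, replicate_cons_append]
    | p =>
      have h1 : s * s = 1 := by rcases hs with h | h <;> simp [h]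
      rw [ix, wd]
      simp only [Nat.add_sub_cancel, h1]
      rw [hrest 1 (Or.inl rfl)]
      simp [lt]
    | m =>
      have h1 : s * -s = -1 := by rcases hs with h | h <;> simp [h]
      rw [ix, wd]
      simp only [Nat.add_sub_cancel, h1]
      rw [hrest (-1) (Or.inr rfl)]
      simp [lt]

theorem ix_replicate (a : ℕ) (u : List Lt) : ∀ (s : ℤ) (k : ℕ),
    ix s k (List.replicate a Lt.z ++ u) = ix s (k + a) u := by
  induction a with
  | zero => intro s k; simp
  | succ a ih =>
    intro s k
    rw [List.replicate_succ, List.cons_append, ix, ih]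
    congr 1
    omega

theorem ix_wd (l : Ix) : ∀ (s : ℤ), s = 1 ∨ s = -1 → Valid l → ix s 0 (wd s l) = l := by
  induction l with
  | nil => intro s _ _; simp [wd, ix]
  | cons x l ih =>
    intro s hs hv
    obtain ⟨hx1, hx2⟩ := hv x (List.mem_cons_self ..)
    have hv' : Valid l := fun y hy => hv y (List.mem_cons_of_mem _ hy)
    have hss : s * x.2 = 1 ∨ s * x.2 = -1 := by
      rcases hs with h | h <;> rcases hx2 with h' | h' <;> simp [h, h']
    rw [wd, ix_replicate, Nat.zero_add]
    have hk : x.1 - 1 + 1 = x.1 := by omega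
    rcases hss with h | h
    · rw [h]
      have hl : lt 1 = Lt.p := by simp [lt]
      rw [hl, ix, ih 1 (Or.inl rfl) hv', hk]
      have : s = x.2 := by
        rcases hs with h1 | h1 <;> rcases hx2 with h' | h' <;> rw [h1, h'] at h ⊢ <;> norm_num at h
      rw [this]
    · rw [h]
      have hl : lt (-1) = Lt.m := by simp [lt]
      rw [hl, ix, ih (-1) (Or.inr rfl) hv', hk]
      have : -s = x.2 := by
        rcases hs with h1 | h1 <;> rcases hx2 with h' | h' <;> rw [h1, h'] at h ⊢ <;> (norm_num at h; try norm_num)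
      rw [this]

theorem good_append (k : ℕ) {a : Lt} {u : List Lt} (hg : Good (a :: u)) :
    Good (List.replicate k Lt.z ++ a :: u) := by
  induction k with
  | zero => simpa using hg
  | succ k ih =>
    rw [List.replicate_succ, List.cons_append]
    refine ⟨fun h => ?_, ih⟩
    simp at h

theorem wd_good (l : Ix) : ∀ s : ℤ, Good (wd s l) := by
  induction l with
  | nil => intro s; trivial
  | cons x l ih =>
    intro s
    rw [wd]
    refine good_append _ ⟨fun _ => ?_, ih _⟩
    unfold lt
    split_ifs <;> simp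

theorem wd_length (l : Ix) : ∀ s : ℤ, Valid l → (wd s l).length = weight l := by
  induction l with
  | nil => intro s _; simp [wd, weight]
  | cons x l ih =>
    intro s hv
    have hx := (hv x (List.mem_cons_self ..)).1
    have := ih (s * x.2) fun y hy => hv y (List.mem_cons_of_mem _ hy)
    unfold weight at this ⊢
    rw [wd, List.length_append, List.length_replicate, List.length_cons, this, List.map_cons, List.sum_cons]
    omega

/-- the product of the signs of the letters -/
def sgn : ℤ → Ix → ℤ
  | _, [] => 1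
  | s, x :: l => (s * x.2) * sgn (s * x.2) l

theorem sgn_abs (l : Ix) : ∀ s : ℤ, s = 1 ∨ s = -1 → Valid l → sgn s l = 1 ∨ sgn s l = -1 := by
  induction l with
  | nil => intro s _ _; exact Or.inl rfl
  | cons x l ih =>
    intro s hs hv
    have hx2 := (hv x (List.mem_cons_self ..)).2
    have hss : s * x.2 = 1 ∨ s * x.2 = -1 := by
      rcases hs with h | h <;> rcases hx2 with h' | h' <;> simp [h, h']
    have := ih (s * x.2) hss fun y hy => hv y (List.mem_cons_of_mem _ hy)
    rw [sgn]
    rcases hss with h | h <;> rw [h] at this ⊢ <;> rcases this with h' | h' <;> simp [h']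

theorem co_replicate (k : ℕ) (u : List Lt) (n : ℕ) :
    co (List.replicate k Lt.z ++ u) n = co u n / (n : ℝ) ^ k := by
  induction k with
  | zero => simp
  | succ k ih =>
    rw [List.replicate_succ, List.cons_append]
    show co (List.replicate k Lt.z ++ u) n / n = _
    rw [ih, pow_succ, div_div]

/-- the general term -/
noncomputable def tm : Ix → ℕ → ℝ
  | [], n => if n = 0 then 1 else 0
  | x :: l, n => (x.2 : ℝ) ^ n / (n : ℝ) ^ x.1 * trunc l n

theorem co_wd (l : Ix) : ∀ s : ℤ, s = 1 ∨ s = -1 → Valid l → l ≠ [] → ∀ n : ℕ, 1 ≤ n →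
    co (wd s l) n = (sgn s l : ℝ) * (s : ℝ) ^ n * tm l n := by
  induction l with
  | nil => intro s _ _ h; exact absurd rfl h
  | cons x l ih =>
    intro s hs hv _ n hn
    obtain ⟨hx1, hx2⟩ := hv x (List.mem_cons_self ..)
    have hv' : Valid l := fun y hy => hv y (List.mem_cons_of_mem _ hy)
    obtain ⟨σ, hσ⟩ : ∃ σ : ℤ, σ = s * x.2 := ⟨_, rfl⟩
    have hss : σ = 1 ∨ σ = -1 := by
      rw [hσ]
      rcases hs with h | h <;> rcases hx2 with h' | h' <;> simp [h, h']
    have hσ2 : (σ : ℝ) * σ = 1 := by rcases hss with h | h <;> simp [h]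
    have hn' : (n : ℝ) ≠ 0 := by positivity
    rw [wd, co_replicate, ← hσ]
    have hlt : lt σ ≠ Lt.z := by unfold lt; split_ifs <;> simp
    have hsn : sn (lt σ) = σ := by
      rcases hss with h | h <;> rw [h] <;> simp [lt, sn]
    rw [co_cons_ne hlt, hsn]
    -- the sum
    have hsum : ∑ k ∈ range n, (σ : ℝ) ^ (n - 1 - k) * co (wd σ l) k =
        (σ : ℝ) * (σ : ℝ) ^ n * ((sgn σ l : ℝ) * trunc l n) := by
      have hpow : (σ : ℝ) ^ (n - 1) = σ * σ ^ n := by
        obtain ⟨m, rfl⟩ : ∃ m, n = m + 1 := ⟨n - 1, by omega⟩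
        rw [Nat.add_sub_cancel, pow_succ]
        calc (σ : ℝ) ^ m = (σ * σ) * σ ^ m := by rw [hσ2, one_mul]
          _ = _ := by ring
      by_cases hl : l = []
      · subst hl
        rw [Finset.sum_eq_single 0]
        · simp only [wd, co, sgn, trunc, if_true]
          rw [Nat.sub_zero, hpow]
          simp
        · intro k _ hk
          simp [wd, co, hk]
        · intro h
          rw [mem_range] at h
          omega
      · obtain ⟨y, l', rfl⟩ := List.exists_cons_of_ne_nil hl
        have h0 : co (wd σ (y :: l')) 0 = 0 := by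
          rw [wd]
          cases h : List.replicate (y.1 - 1) Lt.z with
          | nil => rw [List.nil_append, co_zero]
          | cons b v => rw [List.cons_append, co_zero]
        have h1 : ∀ k ∈ Finset.Ico 1 n, (σ : ℝ) ^ (n - 1 - k) * co (wd σ (y :: l')) k =
            (σ : ℝ) * (σ : ℝ) ^ n * (sgn σ (y :: l') : ℝ) * tm (y :: l') k := by
          intro k hk
          rw [Finset.mem_Ico] at hk
          rw [ih σ hss hv' (by simp) k hk.1, ← hpow]
          have : (σ : ℝ) ^ (n - 1) = σ ^ (n - 1 - k) * σ ^ k := by rw [← pow_add]; congr 1; omega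
          rw [this]
          ring
        rw [Finset.range_eq_Ico, Finset.sum_eq_sum_Ico_succ_bot (by omega), h0, mul_zero, zero_add,
          Finset.sum_congr rfl h1, ← Finset.mul_sum]
        have h2 : ∑ k ∈ Finset.Ico 1 n, tm (y :: l') k = trunc (y :: l') n := rfl
        rw [h2]
        ring
    rw [hsum, sgn, tm, ← hσ]
    obtain ⟨k, hk⟩ : ∃ k, x.1 = k + 1 := ⟨x.1 - 1, by omega⟩
    rw [hk, Nat.add_sub_cancel]
    have hσn : (σ : ℝ) ^ n = (s : ℝ) ^ n * (x.2 : ℝ) ^ n := by
      rw [← mul_pow, hσ]; push_cast; rfl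
    rw [hσn]
    push_cast
    field_simp
    ring

theorem trunc_eq {l : Ix} (hv : Valid l) (hl : l ≠ []) (m : ℕ) :
    trunc l m = (sgn 1 l : ℝ) * ∑ n ∈ range m, co (wd 1 l) n := by
  have hs : (sgn 1 l : ℝ) * sgn 1 l = 1 := by
    rcases sgn_abs l 1 (Or.inl rfl) hv with h | h <;> simp [h]
  have h1 : ∀ n ∈ Finset.Ico 1 m, (sgn 1 l : ℝ) * co (wd 1 l) n = tm l n := by
    intro n hn
    rw [Finset.mem_Ico] at hn
    rw [co_wd l 1 (Or.inl rfl) hv hl n hn.1, Int.cast_one, one_pow, mul_one, ← mul_assoc, hs, one_mul]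
  obtain ⟨y, l', rfl⟩ := List.exists_cons_of_ne_nil hl
  have h0 : co (wd 1 (y :: l')) 0 = 0 := by
    rw [wd]
    cases h : List.replicate (y.1 - 1) Lt.z with
    | nil => rw [List.nil_append, co_zero]
    | cons b v => rw [List.cons_append, co_zero]
  have h2 : ∑ k ∈ Finset.Ico 1 m, tm (y :: l') k = trunc (y :: l') m := rfl
  rw [Finset.mul_sum, ← h2, ← Finset.sum_congr rfl h1, Finset.range_eq_Ico]
  rcases Nat.eq_zero_or_pos m with hm | hm
  · subst hm; simp
  · rw [Finset.sum_eq_sum_Ico_succ_bot hm, h0, mul_zero, zero_add]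

/-- the word of an index in `gens` -/
theorem gens_word {w : ℕ} {l : Ix} (h : l ∈ gens w) : ∃ (a : Lt) (u : List Lt), a ≠ Lt.p ∧
    wd 1 l = a :: u := by
  obtain ⟨h1, h2, h3, -⟩ := h
  obtain ⟨y, l', rfl⟩ := List.exists_cons_of_ne_nil h1
  obtain ⟨hy1, hy2⟩ := h2 y (List.mem_cons_self ..)
  rw [wd]
  cases h : List.replicate (y.1 - 1) Lt.z with
  | nil =>
    refine ⟨_, _, ?_, rfl⟩
    have hy : y.1 = 1 := by
      have := congrArg List.length h
      rw [List.length_replicate, List.length_nil] at this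
      omega
    have hy' : y.2 = -1 := by
      rcases hy2 with h | h
      · exfalso
        apply h3
        rw [List.head?_cons]
        congr 1
        exact Prod.ext hy h
      · exact h
    rw [hy']
    simp [lt]
  | cons b v =>
    refine ⟨b, _, ?_, rfl⟩
    have : b ∈ List.replicate (y.1 - 1) Lt.z := by rw [h]; exact List.mem_cons_self ..
    rw [List.eq_of_mem_replicate this]
    simp

theorem tendsto_trunc {w : ℕ} {l : Ix} (h : l ∈ gens w) :
    Tendsto (trunc l) atTop (𝓝 ((sgn 1 l : ℝ) * V (wd 1 l))) := by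
  obtain ⟨a, u, ha, hw⟩ := gens_word h
  have h1 := (V_tendsto (u := u) ha).const_mul (sgn 1 l : ℝ)
  rw [← hw] at h1
  refine h1.congr fun m => ?_
  rw [trunc_eq h.2.1 h.1]

theorem tendsto_val {w : ℕ} {l : Ix} (h : l ∈ gens w) : Tendsto (trunc l) atTop (𝓝 (val l)) :=
  tendsto_nhds_limUnder ⟨_, tendsto_trunc h⟩

theorem abs_val {w : ℕ} {l : Ix} (h : l ∈ gens w) : |val l| = V (wd 1 l) := by
  have h1 : val l = (sgn 1 l : ℝ) * V (wd 1 l) := tendsto_nhds_unique (tendsto_val h) (tendsto_trunc h)
  obtain ⟨a, u, ha, hw⟩ := gens_word h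
  have h2 : 0 < V (wd 1 l) := by
    rw [hw]
    exact V_pos ha (by rw [← hw]; exact wd_good l 1)
  rw [h1, abs_mul, abs_of_pos h2]
  rcases sgn_abs l 1 (Or.inl rfl) h.2.1 with h | h <;> simp [h]

end Run7.h867.AM
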