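import Mathlib
import Pool.Agent.Run7.h867.AM.Index

/-!
# Anti-concentration of the logarithms of the values (helper867)
-/

set_option autoImplicit false

namespace Run7.h867.AM

open Finset Filter Topology

theorem central_sq (k : ℕ) : (Nat.centralBinom k) ^ 2 * (2 * k + 1) ≤ 16 ^ k := by
  induction k with
  | zero => simp
  | succ k ih =>
    have h := Nat.succ_mul_centralBinom_succ k
    have h1 : (k + 1) ^ 2 * ((Nat.centralBinom (k + 1)) ^ 2 * (2 * (k + 1) + 1)) ≤ (k + 1) ^ 2 * 16 ^ (k + 1) := by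
      calc (k + 1) ^ 2 * ((Nat.centralBinom (k + 1)) ^ 2 * (2 * (k + 1) + 1))
          = ((k + 1) * Nat.centralBinom (k + 1)) ^ 2 * (2 * k + 3) := by ring
        _ = (2 * (2 * k + 1) * Nat.centralBinom k) ^ 2 * (2 * k + 3) := by rw [h]
        _ = 4 * ((2 * k + 1) * (2 * k + 3)) * ((Nat.centralBinom k) ^ 2 * (2 * k + 1)) := by ring
        _ ≤ 4 * ((2 * k + 1) * (2 * k + 3)) * 16 ^ k := Nat.mul_le_mul_left _ ih
        _ ≤ 4 * (4 * (k + 1) ^ 2) * 16 ^ k := by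
            refine Nat.mul_le_mul_right _ (Nat.mul_le_mul_left _ ?_)
            nlinarith
        _ = (k + 1) ^ 2 * 16 ^ (k + 1) := by ring
    exact Nat.le_of_mul_le_mul_left h1 (by positivity)

theorem choose_half_sq (n : ℕ) : (n.choose (n / 2)) ^ 2 * (n + 1) ≤ 4 ^ n := by
  rcases Nat.even_or_odd' n with ⟨k, rfl | rfl⟩
  · have := central_sq k
    rw [Nat.centralBinom] at this
    rw [Nat.mul_div_cancel_left k (by norm_num : 0 < 2), pow_mul]
    exact this
  · have h1 := central_sq (k + 1)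
    have h2 : Nat.centralBinom (k + 1) = 2 * (2 * k + 1).choose k := by
      rw [Nat.centralBinom, show 2 * (k + 1) = (2 * k + 1) + 1 by ring, Nat.choose_succ_succ,
        ← Nat.choose_symm_half k]
      ring
    rw [show (2 * k + 1) / 2 = k by omega]
    rw [h2] at h1
    have h3 : 4 * (((2 * k + 1).choose k) ^ 2 * (2 * k + 1 + 1)) ≤ 4 * 4 ^ (2 * k + 1) := by
      calc 4 * (((2 * k + 1).choose k) ^ 2 * (2 * k + 1 + 1))
          ≤ (2 * (2 * k + 1).choose k) ^ 2 * (2 * (k + 1) + 1) := by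
            rw [mul_pow]
            nlinarith [Nat.zero_le (((2 * k + 1).choose k) ^ 2)]
        _ ≤ 16 ^ (k + 1) := h1
        _ = 4 * 4 ^ (2 * k + 1) := by
            rw [show (16 : ℕ) = 4 ^ 2 by norm_num, ← pow_mul, ← pow_succ']
            congr 1
    exact Nat.le_of_mul_le_mul_left h3 (by norm_num)

theorem choose_half_le (n : ℕ) : ((n.choose (n / 2) : ℕ) : ℝ) ≤ 2 ^ n / √((n : ℝ) + 1) := by
  have h := choose_half_sq n
  have h1 : ((n.choose (n / 2) : ℕ) : ℝ) ^ 2 * ((n : ℝ) + 1) ≤ 4 ^ n := by exact_mod_cast h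
  have h2 : 0 < √((n : ℝ) + 1) := Real.sqrt_pos.2 (by positivity)
  rw [le_div_iff₀ h2]
  refine le_of_sq_le_sq ?_ (by positivity)
  rw [mul_pow, Real.sq_sqrt (by positivity), ← pow_mul, mul_comm n 2, pow_mul]
  norm_num
  exact h1

theorem amgm {lam y : ℝ} (hl : 0 < lam) (hy : 0 < y) : 1 / √y ≤ (lam + 1 / (lam * y)) / 2 := by
  have hs : 0 < √y := Real.sqrt_pos.2 hy
  have hss : √y * √y = y := Real.mul_self_sqrt hy.le
  obtain ⟨t, ht⟩ : ∃ t, t = 1 / √y := ⟨_, rfl⟩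
  have h1 : 1 / (lam * y) = t ^ 2 / lam := by
    have h2 : t ^ 2 = 1 / y := by rw [ht, div_pow, one_pow, sq, hss]
    rw [h2]
    field_simp
  rw [h1, ← ht, le_div_iff₀ (by norm_num : (0 : ℝ) < 2), ← sub_nonneg]
  have : lam + t ^ 2 / lam - t * 2 = (lam - t) ^ 2 / lam := by
    field_simp
    ring
  rw [this]
  positivity

theorem sum_weights (n : ℕ) :
    ∑ P : Finset (Fin n), (2 : ℝ) ^ (n - #P) / ((n - #P : ℕ) + 1 : ℝ) ≤ 3 ^ n * (3 / (2 * (n + 1))) := by
  have h1 : ∑ P : Finset (Fin n), (2 : ℝ) ^ (n - #P) / ((n - #P : ℕ) + 1 : ℝ) =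
      ∑ k ∈ range (n + 1), (n.choose k : ℝ) * ((2 : ℝ) ^ (n - k) / ((n - k : ℕ) + 1 : ℝ)) := by
    rw [← Finset.powerset_univ, Finset.sum_powerset_apply_card
      (fun k => (2 : ℝ) ^ (n - k) / ((n - k : ℕ) + 1 : ℝ)), Finset.card_univ, Fintype.card_fin]
    exact sum_congr rfl fun k _ => by rw [nsmul_eq_mul]
  have h2 : ∑ k ∈ range (n + 1), (n.choose k : ℝ) * ((2 : ℝ) ^ (n - k) / ((n - k : ℕ) + 1 : ℝ)) =
      ∑ j ∈ range (n + 1), (n.choose j : ℝ) * ((2 : ℝ) ^ j / ((j : ℝ) + 1)) := by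
    rw [← Finset.sum_range_reflect]
    refine sum_congr rfl fun j hj => ?_
    rw [mem_range] at hj
    rw [show n + 1 - 1 - j = n - j by omega, show n - (n - j) = j by omega, Nat.choose_symm (by omega)]
  have h3 : ∀ j, (n.choose j : ℝ) * ((2 : ℝ) ^ j / ((j : ℝ) + 1)) =
      1 / (2 * (n + 1)) * (((n + 1).choose (j + 1) : ℝ) * 2 ^ (j + 1)) := by
    intro j
    have h4 := Nat.add_one_mul_choose_eq n j
    have h5 : ((n : ℝ) + 1) * n.choose j = (n + 1).choose (j + 1) * ((j : ℝ) + 1) := by exact_mod_cast h4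
    have h6 : (0 : ℝ) < (j : ℝ) + 1 := by positivity
    have h7 : (0 : ℝ) < (n : ℝ) + 1 := by positivity
    rw [pow_succ]
    field_simp
    linarith
  have h4 : ∑ j ∈ range (n + 1), (((n + 1).choose (j + 1) : ℝ) * 2 ^ (j + 1)) ≤ 3 ^ (n + 1) := by
    have h5 := add_pow (2 : ℝ) 1 (n + 1)
    rw [Finset.sum_range_succ'] at h5
    have h6 : (2 + 1 : ℝ) ^ (n + 1) = 3 ^ (n + 1) := by norm_num
    rw [h6] at h5
    rw [h5]
    have h7 : ∑ j ∈ range (n + 1), (((n + 1).choose (j + 1) : ℝ) * 2 ^ (j + 1)) =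
        ∑ k ∈ range (n + 1), (2 : ℝ) ^ (k + 1) * 1 ^ (n + 1 - (k + 1)) * ((n + 1).choose (k + 1) : ℝ) :=
      sum_congr rfl fun j _ => by rw [one_pow]; ring
    rw [h7]
    have : (0 : ℝ) ≤ 2 ^ 0 * 1 ^ (n + 1 - 0) * ((n + 1).choose 0 : ℝ) := by positivity
    linarith
  rw [h1, h2, sum_congr rfl fun j _ => h3 j, ← mul_sum]
  calc 1 / (2 * ((n : ℝ) + 1)) * ∑ j ∈ range (n + 1), (((n + 1).choose (j + 1) : ℝ) * 2 ^ (j + 1))
      ≤ 1 / (2 * ((n : ℝ) + 1)) * 3 ^ (n + 1) := by gcongr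
    _ = 3 ^ n * (3 / (2 * (n + 1))) := by rw [pow_succ]; field_simp

/-- the constant -/
noncomputable def lam (n : ℕ) : ℝ := √(3 / (2 * ((n : ℝ) + 1)))

theorem sum_half (n : ℕ) :
    ∑ P : Finset (Fin n), (((n - #P).choose ((n - #P) / 2) : ℕ) : ℝ) ≤ 3 ^ n * lam n := by
  have hl : 0 < lam n := Real.sqrt_pos.2 (by positivity)
  have hl2 : lam n * lam n = 3 / (2 * ((n : ℝ) + 1)) := Real.mul_self_sqrt (by positivity)
  have hw : ∑ P : Finset (Fin n), (2 : ℝ) ^ (n - #P) = 3 ^ n := by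
    have := Fintype.sum_pow_mul_eq_add_pow (Fin n) (1 : ℝ) 2
    rw [Fintype.card_fin] at this
    simp only [one_pow, one_mul] at this
    rw [this]
    norm_num
  have h1 : ∀ P : Finset (Fin n), (((n - #P).choose ((n - #P) / 2) : ℕ) : ℝ) ≤
      1 / 2 * lam n * 2 ^ (n - #P) + 1 / 2 * (1 / lam n) * ((2 : ℝ) ^ (n - #P) / ((n - #P : ℕ) + 1 : ℝ)) := by
    intro P
    have h2 := choose_half_le (n - #P)
    have h3 := amgm (lam := lam n) (y := ((n - #P : ℕ) : ℝ) + 1) hl (by positivity)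
    have h4 : (0 : ℝ) ≤ 2 ^ (n - #P) := by positivity
    calc (((n - #P).choose ((n - #P) / 2) : ℕ) : ℝ) ≤ 2 ^ (n - #P) * (1 / √(((n - #P : ℕ) : ℝ) + 1)) := by
          rw [mul_one_div]; exact h2
      _ ≤ 2 ^ (n - #P) * ((lam n + 1 / (lam n * (((n - #P : ℕ) : ℝ) + 1))) / 2) := by gcongr
      _ = _ := by
          have : ((n - #P : ℕ) : ℝ) + 1 ≠ 0 := by positivity
          field_simp
  refine (sum_le_sum fun P _ => h1 P).trans ?_
  rw [sum_add_distrib, ← mul_sum, ← mul_sum, hw]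
  have h5 := sum_weights n
  calc 1 / 2 * lam n * 3 ^ n +
        1 / 2 * (1 / lam n) * ∑ P : Finset (Fin n), (2 : ℝ) ^ (n - #P) / ((n - #P : ℕ) + 1 : ℝ)
      ≤ 1 / 2 * lam n * 3 ^ n + 1 / 2 * (1 / lam n) * (3 ^ n * (3 / (2 * (n + 1)))) := by gcongr
    _ = 3 ^ n * lam n := by
        rw [← hl2]
        field_simp
        ring

/-- the combinatorial lemma -/
theorem anti {n : ℕ} (f : (Fin n → Lt) → ℝ)
    (hf : ∀ g g' : Fin n → Lt, (∀ i, Rz (g i) (g' i)) → g ≠ g' → f g + 1 ≤ f g') (x : ℝ) :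
    ((univ.filter fun g => x ≤ f g ∧ f g < x + 1).card : ℝ) ≤ 3 ^ n * lam n := by
  classical
  refine le_trans ?_ (sum_half n)
  obtain ⟨S, hS⟩ : ∃ S : Finset (Fin n → Lt), S = univ.filter fun g => x ≤ f g ∧ f g < x + 1 := ⟨_, rfl⟩
  rw [← hS]
  have h1 : #S = ∑ P : Finset (Fin n), #(S.filter fun g => (univ.filter fun i => g i = Lt.p) = P) :=
    card_eq_sum_card_fiberwise fun g _ => mem_univ _
  rw [h1]
  push_cast
  refine sum_le_sum fun P _ => ?_
  rw [Nat.cast_le]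
  obtain ⟨T, hT⟩ : ∃ T : Finset (Fin n → Lt), T = S.filter fun g => (univ.filter fun i => g i = Lt.p) = P :=
    ⟨_, rfl⟩
  rw [← hT]
  have hTm : ∀ g ∈ T, (x ≤ f g ∧ f g < x + 1) ∧ ∀ i, g i = Lt.p ↔ i ∈ P := by
    intro g hg
    rw [hT, mem_filter, hS, mem_filter] at hg
    refine ⟨hg.1.2, fun i => ?_⟩
    rw [← hg.2, mem_filter]
    simp
  obtain ⟨Q, hQ⟩ : ∃ Q : (Fin n → Lt) → Finset {i : Fin n // i ∉ P},
      Q = fun g => univ.filter fun i => g i = Lt.z := ⟨_, rfl⟩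
  have hQm : ∀ g (i : {i : Fin n // i ∉ P}), i ∈ Q g ↔ g i = Lt.z := by
    intro g i; rw [hQ]; simp
  have hrel : ∀ g ∈ T, ∀ g' ∈ T, Q g ⊆ Q g' → ∀ i, Rz (g i) (g' i) := by
    intro g hg g' hg' hsub i
    by_cases hi : i ∈ P
    · left
      rw [((hTm g hg).2 i).2 hi, ((hTm g' hg').2 i).2 hi]
    · have h2 : g i ≠ Lt.p := fun h => hi (((hTm g hg).2 i).1 h)
      have h3 : g' i ≠ Lt.p := fun h => hi (((hTm g' hg').2 i).1 h)
      by_cases h4 : g i = Lt.z
      · left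
        have h5 := hsub ((hQm g ⟨i, hi⟩).2 h4)
        rw [hQm] at h5
        rw [h4, h5]
      · have h5 : g i = Lt.m := by
          cases h : g i with
          | z => exact absurd h h4
          | p => exact absurd h h2
          | m => rfl
        cases h : g' i with
        | z => right; exact ⟨h5, rfl⟩
        | p => exact absurd h h3
        | m => left; exact h5
  have hinj : Set.InjOn Q T := by
    intro g hg g' hg' heq
    by_contra hne
    have h2 := hf g g' (hrel g hg g' hg' heq.subset) hne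
    have h3 := (hTm g hg).1
    have h4 := (hTm g' hg').1
    linarith [h3.1, h4.2]
  rw [← card_image_of_injOn hinj]
  have hanti : IsAntichain (· ⊆ ·) (SetLike.coe (T.image Q)) := by
    intro A hA B hB hne hsub
    rw [SetLike.mem_coe, mem_image] at hA hB
    obtain ⟨g, hg, rfl⟩ := hA
    obtain ⟨g', hg', rfl⟩ := hB
    have hne' : g ≠ g' := fun h => hne (by rw [h])
    have h2 := hf g g' (hrel g hg g' hg' hsub) hne'
    have h3 := (hTm g hg).1
    have h4 := (hTm g' hg').1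
    linarith [h3.1, h4.2]
  have h2 := hanti.sperner
  have h3 : Fintype.card {i : Fin n // i ∉ P} = n - #P := by
    rw [Fintype.card_subtype_compl, Fintype.card_fin, Fintype.card_coe]
  rw [h3] at h2
  exact h2

end Run7.h867.AM
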