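import Mathlib
import Pool.Agent.Run7.h867.AM.Anti

/-!
# The set of the indices of weight `n + 2`, and the anti-concentration on it (helper867)
-/

set_option autoImplicit false

namespace Run7.h867.AM

open Finset Filter Topology

/-- the words of length `n + 2` which do not begin with `p` and do not end with `z` -/
def Phi {n : ℕ} (b t : Bool) (g : Fin n → Lt) : List Lt :=
  (if b then Lt.z else Lt.m) :: (List.ofFn g ++ [if t then Lt.p else Lt.m])

theorem good_snoc (u : List Lt) {a : Lt} (ha : a ≠ Lt.z) : Good (u ++ [a]) := by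
  induction u with
  | nil => exact ⟨fun _ => ha, trivial⟩
  | cons b u ih => exact ⟨fun h => by simp at h, ih⟩

theorem good_last (u : List Lt) {a : Lt} (h : Good (u ++ [a])) : a ≠ Lt.z := by
  induction u with
  | nil => exact h.1 rfl
  | cons b u ih => exact ih h.2

theorem Phi_good {n : ℕ} (b t : Bool) (g : Fin n → Lt) : Good (Phi b t g) := by
  have : Good (((if b then Lt.z else Lt.m) :: List.ofFn g) ++ [if t then Lt.p else Lt.m]) :=
    good_snoc _ (by cases t <;> simp)
  exact this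

theorem Phi_ne {n : ℕ} (b t : Bool) (g : Fin n → Lt) : Phi b t g ≠ [] := by simp [Phi]

theorem Phi_inj {n : ℕ} {b t b' t' : Bool} {g g' : Fin n → Lt} (h : Phi b t g = Phi b' t' g') :
    b = b' ∧ t = t' ∧ g = g' := by
  unfold Phi at h
  rw [List.cons.injEq] at h
  obtain ⟨h1, h2⟩ := h
  have h3 := List.append_inj h2 (by simp)
  refine ⟨?_, ?_, List.ofFn_injective h3.1⟩
  · cases b <;> cases b' <;> simp at h1 ⊢
  · have := h3.2
    cases t <;> cases t' <;> simp at this ⊢

theorem exists_Phi {n : ℕ} {u : List Lt} (hg : Good u) (hl : u.length = n + 2)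
    (hh : ∃ a v, a ≠ Lt.p ∧ u = a :: v) : ∃ b t, ∃ g : Fin n → Lt, u = Phi b t g := by
  obtain ⟨a, v, ha, rfl⟩ := hh
  have hv : v ≠ [] := by
    intro h
    subst h
    simp at hl
  obtain ⟨v', c, rfl⟩ : ∃ v' c, v = v' ++ [c] := ⟨v.dropLast, v.getLast hv, (List.dropLast_append_getLast hv).symm⟩
  have hc : c ≠ Lt.z := good_last v' hg.2
  have hlen : v'.length = n := by
    simp only [List.length_cons, List.length_append, List.length_nil] at hl
    omega
  subst hlen
  refine ⟨decide (a = Lt.z), decide (c = Lt.p), v'.get, ?_⟩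
  unfold Phi
  rw [List.ofFn_get]
  have h1 : (if decide (a = Lt.z) = true then Lt.z else Lt.m) = a := by
    cases a with
    | z => simp
    | p => exact absurd rfl ha
    | m => simp
  have h2 : (if decide (c = Lt.p) = true then Lt.p else Lt.m) = c := by
    cases c with
    | z => exact absurd rfl hc
    | p => simp
    | m => simp
  rw [h1, h2]

/-- the index of a word -/
noncomputable def idx {n : ℕ} (x : Bool × Bool × (Fin n → Lt)) : Ix := ix 1 0 (Phi x.1 x.2.1 x.2.2)

theorem wd_idx {n : ℕ} (x : Bool × Bool × (Fin n → Lt)) : wd 1 (idx x) = Phi x.1 x.2.1 x.2.2 := by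
  unfold idx
  rw [wd_ix _ 1 0 (Or.inl rfl) (Phi_good _ _ _) (Phi_ne _ _ _)]
  simp

theorem idx_inj {n : ℕ} : Function.Injective (idx (n := n)) := by
  intro x y h
  have h1 := wd_idx x
  rw [h, wd_idx y] at h1
  obtain ⟨h2, h3, h4⟩ := Phi_inj h1
  exact Prod.ext h2.symm (Prod.ext h3.symm h4.symm)

theorem idx_mem {n : ℕ} (x : Bool × Bool × (Fin n → Lt)) : idx x ∈ gens (n + 2) := by
  have hv : Valid (idx x) := ix_valid _ 1 0 (Or.inl rfl)
  refine ⟨?_, hv, ?_, ?_⟩
  · intro h
    have := wd_idx x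
    rw [h] at this
    exact Phi_ne _ _ _ this.symm
  · intro h
    obtain ⟨l, hl⟩ : ∃ l, idx x = (1, 1) :: l := by
      cases hi : idx x with
      | nil => rw [hi] at h; simp at h
      | cons y l =>
        rw [hi, List.head?_cons, Option.some.injEq] at h
        exact ⟨l, by rw [h]⟩
    have h1 := wd_idx x
    rw [hl, wd] at h1
    simp only [Nat.sub_self, List.replicate_zero, List.nil_append, mul_one, lt, if_true, Phi] at h1
    rw [List.cons.injEq] at h1
    have := h1.1
    split_ifs at this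
  · unfold idx
    rw [ix_weight _ 1 0 (Phi_good _ _ _) (Phi_ne _ _ _)]
    simp [Phi]
    

theorem gens_idx {n : ℕ} {l : Ix} (hl : l ∈ gens (n + 2)) : ∃ x : Bool × Bool × (Fin n → Lt), idx x = l := by
  have h1 : (wd 1 l).length = n + 2 := by rw [wd_length l 1 hl.2.1]; exact hl.2.2.2
  obtain ⟨b, t, g, h2⟩ := exists_Phi (wd_good l 1) h1 (gens_word hl)
  refine ⟨(b, t, g), ?_⟩
  unfold idx
  rw [← h2]
  exact ix_wd l 1 (Or.inl rfl) hl.2.1

/-- the finite set of the indices of weight `n + 2` -/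
noncomputable def G (n : ℕ) : Finset Ix := by
  classical
  exact univ.image (idx (n := n))

theorem mem_G {n : ℕ} {l : Ix} : l ∈ G n ↔ l ∈ gens (n + 2) := by
  classical
  unfold G
  rw [mem_image]
  constructor
  · rintro ⟨x, -, rfl⟩
    exact idx_mem x
  · intro h
    obtain ⟨x, hx⟩ := gens_idx h
    exact ⟨x, mem_univ _, hx⟩

theorem card_G (n : ℕ) : #(G n) = 4 * 3 ^ n := by
  classical
  unfold G
  rw [card_image_of_injective _ idx_inj, card_univ, Fintype.card_prod, Fintype.card_prod, Fintype.card_bool,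
    Fintype.card_fun, Fintype.card_fin]
  have : Fintype.card Lt = 3 := rfl
  rw [this]
  ring

/-- the logarithm of the absolute value -/
noncomputable def Lg (l : Ix) : ℝ := Real.logb 2 |val l|

theorem Lg_idx {n : ℕ} (x : Bool × Bool × (Fin n → Lt)) : Lg (idx x) = Real.logb 2 (V (Phi x.1 x.2.1 x.2.2)) := by
  unfold Lg
  rw [abs_val (idx_mem x), wd_idx]

theorem V_Phi_pos {n : ℕ} (b t : Bool) (g : Fin n → Lt) : 0 < V (Phi b t g) :=
  V_pos (by cases b <;> simp) (Phi_good b t g)

theorem forall2_Phi {n : ℕ} (b t : Bool) {g g' : Fin n → Lt} (h : ∀ i, Rz (g i) (g' i)) :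
    List.Forall₂ Rz (Phi b t g) (Phi b t g') := by
  refine List.Forall₂.cons (Or.inl rfl) ?_
  refine List.rel_append ?_ (List.Forall₂.cons (Or.inl rfl) List.Forall₂.nil)
  rw [List.forall₂_iff_get]
  refine ⟨by simp, fun i h1 h2 => ?_⟩
  simp only [List.get_ofFn]
  exact h _

theorem val_ne {n : ℕ} {l : Ix} (hl : l ∈ G n) : val l ≠ 0 := by
  obtain ⟨x, rfl⟩ := gens_idx (mem_G.1 hl)
  have h := abs_val (idx_mem x)
  rw [wd_idx] at h
  have h2 := V_Phi_pos x.1 x.2.1 x.2.2
  intro h0
  rw [h0, abs_zero] at h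
  linarith

/-- at most the proportion `lam n` of the values has `log_2 |value|` in `[x, x + 1)` -/
theorem anti_G (n : ℕ) (x : ℝ) :
    (((G n).filter fun l => x ≤ Lg l ∧ Lg l < x + 1).card : ℝ) ≤ 4 * 3 ^ n * lam n := by
  classical
  have h1 : (G n).filter (fun l => x ≤ Lg l ∧ Lg l < x + 1) ⊆
      (univ : Finset (Bool × Bool)).biUnion fun bt =>
        ((univ.filter fun g : Fin n → Lt => x ≤ Real.logb 2 (V (Phi bt.1 bt.2 g)) ∧
          Real.logb 2 (V (Phi bt.1 bt.2 g)) < x + 1).image fun g => idx (bt.1, bt.2, g)) := by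
    intro l hl
    rw [mem_filter] at hl
    obtain ⟨y, rfl⟩ := gens_idx (mem_G.1 hl.1)
    rw [mem_biUnion]
    refine ⟨(y.1, y.2.1), mem_univ _, ?_⟩
    rw [mem_image]
    refine ⟨y.2.2, ?_, rfl⟩
    rw [mem_filter]
    refine ⟨mem_univ _, ?_⟩
    have := hl.2
    rw [Lg_idx] at this
    exact this
  have h2 : ∀ bt : Bool × Bool, ((((univ.filter fun g : Fin n → Lt => x ≤ Real.logb 2 (V (Phi bt.1 bt.2 g)) ∧
          Real.logb 2 (V (Phi bt.1 bt.2 g)) < x + 1).image fun g => idx (bt.1, bt.2, g)).card : ℕ) : ℝ) ≤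
      3 ^ n * lam n := by
    intro bt
    refine le_trans (Nat.cast_le.2 card_image_le) ?_
    refine anti (fun g => Real.logb 2 (V (Phi bt.1 bt.2 g))) ?_ x
    intro g g' hgg hne
    have h3 : 2 * V (Phi bt.1 bt.2 g) ≤ V (Phi bt.1 bt.2 g') := by
      refine V_double ?_ ?_ (forall2_Phi bt.1 bt.2 hgg) (Phi_good _ _ _) (Phi_good _ _ _) ?_
      · cases bt.1 <;> simp
      · cases bt.1 <;> simp
      · intro h
        exact hne (Phi_inj h).2.2
    have h4 := V_Phi_pos bt.1 bt.2 g
    have h5 : Real.logb 2 (2 * V (Phi bt.1 bt.2 g)) ≤ Real.logb 2 (V (Phi bt.1 bt.2 g')) :=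
      Real.logb_le_logb_of_le (by norm_num) (by positivity) h3
    rw [Real.logb_mul (by norm_num) h4.ne', Real.logb_self_eq_one (by norm_num)] at h5
    linarith
  calc (((G n).filter fun l => x ≤ Lg l ∧ Lg l < x + 1).card : ℝ)
      ≤ ∑ bt : Bool × Bool, ((((univ.filter fun g : Fin n → Lt => x ≤ Real.logb 2 (V (Phi bt.1 bt.2 g)) ∧
          Real.logb 2 (V (Phi bt.1 bt.2 g)) < x + 1).image fun g => idx (bt.1, bt.2, g)).card : ℕ) : ℝ) := by
        exact_mod_cast (card_le_card h1).trans card_biUnion_le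
    _ ≤ ∑ bt : Bool × Bool, 3 ^ n * lam n := sum_le_sum fun bt _ => h2 bt
    _ = 4 * 3 ^ n * lam n := by
        rw [sum_const, card_univ, Fintype.card_prod, Fintype.card_bool, nsmul_eq_mul]
        push_cast
        ring

end Run7.h867.AM
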