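import Mathlib
import Pool.Agent.Run7.h867.AM.Gens

/-!
# Tuples of alternating multiple zeta values (helper867)
-/

set_option autoImplicit false

namespace Run7.h867.AM

open Finset Filter Topology

theorem lam_nonneg (n : ℕ) : 0 ≤ lam n := Real.sqrt_nonneg _

theorem lam_le {n w : ℕ} (hw : 2 ≤ w) (hn : w ≤ n + 2) : lam n ≤ √(3 / (w : ℝ)) := by
  unfold lam
  refine Real.sqrt_le_sqrt ?_
  have h1 : (w : ℝ) ≤ n + 2 := by exact_mod_cast hn
  have h2 : (2 : ℝ) ≤ w := by exact_mod_cast hw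
  refine div_le_div_of_nonneg_left (by norm_num) (by linarith) ?_
  linarith

theorem anti_Icc (n : ℕ) (y L : ℝ) (hL : 0 ≤ L) :
    (((G n).filter fun l => y ≤ Lg l ∧ Lg l ≤ y + L).card : ℝ) ≤ (L + 1) * (4 * 3 ^ n * lam n) := by
  classical
  have h1 : (G n).filter (fun l => y ≤ Lg l ∧ Lg l ≤ y + L) ⊆
      (range (⌊L⌋₊ + 1)).biUnion fun k => (G n).filter fun l => y + (k : ℝ) ≤ Lg l ∧ Lg l < y + (k : ℝ) + 1 := by
    intro l hl
    rw [mem_filter] at hl
    rw [mem_biUnion]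
    refine ⟨⌊Lg l - y⌋₊, ?_, ?_⟩
    · rw [mem_range]
      have : ⌊Lg l - y⌋₊ ≤ ⌊L⌋₊ := Nat.floor_le_floor (by linarith [hl.2.2])
      omega
    · rw [mem_filter]
      refine ⟨hl.1, ?_, ?_⟩
      · have := Nat.floor_le (a := Lg l - y) (by linarith [hl.2.1])
        linarith
      · have := Nat.lt_floor_add_one (Lg l - y)
        linarith
  calc (((G n).filter fun l => y ≤ Lg l ∧ Lg l ≤ y + L).card : ℝ)
      ≤ ∑ k ∈ range (⌊L⌋₊ + 1),
          (((G n).filter fun l => y + (k : ℝ) ≤ Lg l ∧ Lg l < y + (k : ℝ) + 1).card : ℝ) := by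
        exact_mod_cast (card_le_card h1).trans card_biUnion_le
    _ ≤ ∑ k ∈ range (⌊L⌋₊ + 1), 4 * 3 ^ n * lam n := sum_le_sum fun k _ => anti_G n (y + k)
    _ = (⌊L⌋₊ + 1) * (4 * 3 ^ n * lam n) := by rw [sum_const, card_range, nsmul_eq_mul]; push_cast; ring
    _ ≤ (L + 1) * (4 * 3 ^ n * lam n) := by
        have h2 := Nat.floor_le hL
        have h3 := lam_nonneg n
        gcongr

theorem G_nonempty (n : ℕ) : (G n).Nonempty := by
  rw [← card_pos, card_G]
  positivity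

theorem fiber {N : ℕ} (n : Fin N → ℕ) (B : Finset (Fin N → Ix))
    (hB : B ⊆ Fintype.piFinset fun i => G (n i)) (i0 : Fin N) (b : ℝ) (hb0 : 0 ≤ b)
    (hb : ∀ u ∈ B, (((G (n i0)).filter fun x => Function.update u i0 x ∈ B).card : ℝ) ≤ b) :
    (#B : ℝ) * #(G (n i0)) ≤ b * ∏ i, (#(G (n i)) : ℝ) := by
  classical
  obtain ⟨a0, ha0⟩ := G_nonempty (n i0)
  obtain ⟨φ, hφ⟩ : ∃ φ : (Fin N → Ix) → (Fin N → Ix), φ = fun u => Function.update u i0 a0 := ⟨_, rfl⟩
  have h1 : (#B : ℝ) = ∑ c ∈ B.image φ, (#(B.filter fun u => φ u = c) : ℝ) := by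
    exact_mod_cast card_eq_sum_card_image φ B
  have h2 : ∀ c ∈ B.image φ, (#(B.filter fun u => φ u = c) : ℝ) ≤ b := by
    intro c hc
    rw [mem_image] at hc
    obtain ⟨u', hu', rfl⟩ := hc
    refine le_trans ?_ (hb u' hu')
    rw [Nat.cast_le]
    have hupd : ∀ u, φ u = φ u' → u = Function.update u' i0 (u i0) := by
      intro u h
      funext j
      by_cases hj : j = i0
      · subst hj; simp
      · rw [Function.update_of_ne hj]
        have := congrFun h j
        rw [hφ] at this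
        simpa [Function.update_of_ne hj] using this
    refine card_le_card_of_injOn (fun u => u i0) ?_ ?_
    · intro u hu
      rw [mem_coe, mem_filter] at hu
      rw [mem_coe, mem_filter]
      refine ⟨(Fintype.mem_piFinset.1 (hB hu.1)) i0, ?_⟩
      rw [← hupd u hu.2]
      exact hu.1
    · intro u hu u2 hu2 h
      rw [mem_coe, mem_filter] at hu hu2
      rw [hupd u hu.2, hupd u2 hu2.2]
      simp only at h
      rw [h]
  have h3 : B.image φ ⊆ Fintype.piFinset fun i => if i = i0 then {a0} else G (n i) := by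
    intro c hc
    rw [mem_image] at hc
    obtain ⟨u, hu, rfl⟩ := hc
    rw [Fintype.mem_piFinset]
    intro i
    rw [hφ]
    by_cases hi : i = i0
    · subst hi; simp
    · simp only [if_neg hi, Function.update_of_ne hi]
      exact (Fintype.mem_piFinset.1 (hB hu)) i
  have h4 : (#(B.image φ) : ℝ) * #(G (n i0)) ≤ ∏ i, (#(G (n i)) : ℝ) := by
    have h5 := card_le_card h3
    rw [Fintype.card_piFinset] at h5
    have h6 : (∏ i, #(if i = i0 then {a0} else G (n i))) * #(G (n i0)) = ∏ i, #(G (n i)) := by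
      rw [← Finset.mul_prod_erase univ (fun i => #(if i = i0 then {a0} else G (n i))) (mem_univ i0),
        ← Finset.mul_prod_erase univ (fun i => #(G (n i))) (mem_univ i0)]
      simp only [if_true, card_singleton, one_mul]
      rw [mul_comm]
      congr 1
      refine prod_congr rfl fun i hi => ?_
      rw [if_neg (ne_of_mem_erase hi)]
    calc (#(B.image φ) : ℝ) * #(G (n i0)) = ((#(B.image φ) * #(G (n i0)) : ℕ) : ℝ) := by push_cast; ring
      _ ≤ ((∏ i, #(G (n i)) : ℕ) : ℝ) := by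
          rw [← h6]
          exact Nat.cast_le.2 (Nat.mul_le_mul_right _ h5)
      _ = _ := by push_cast; rfl
  calc (#B : ℝ) * #(G (n i0)) ≤ (∑ c ∈ B.image φ, b) * #(G (n i0)) := by
        rw [h1]
        exact mul_le_mul_of_nonneg_right (sum_le_sum h2) (Nat.cast_nonneg _)
    _ = b * ((#(B.image φ) : ℝ) * #(G (n i0))) := by rw [sum_const, nsmul_eq_mul]; ring
    _ ≤ _ := mul_le_mul_of_nonneg_left h4 hb0

theorem pair_bad {N : ℕ} (n : Fin N → ℕ) (γ : Fin N → ℤ) (hγ : γ ≠ 0) (K : ℝ) (hK : 0 ≤ K) (w : ℕ)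
    (hw : 2 ≤ w) (hn : ∀ i, w ≤ n i + 2) :
    (((Fintype.piFinset fun i => G (n i)).filter fun u => |∑ i, (γ i : ℝ) * Lg (u i)| ≤ K).card : ℝ) ≤
      (2 * K + 1) * √(3 / (w : ℝ)) * ∏ i, (#(G (n i)) : ℝ) := by
  classical
  obtain ⟨i0, hi0⟩ := Function.ne_iff.1 hγ
  have hi0' : (γ i0 : ℝ) ≠ 0 := by exact_mod_cast hi0
  have hi1 : 1 ≤ |(γ i0 : ℝ)| := by
    have : 1 ≤ |γ i0| := Int.one_le_abs hi0
    exact_mod_cast this
  have hlam := lam_nonneg (n i0)
  have h1 := fiber n ((Fintype.piFinset fun i => G (n i)).filter fun u => |∑ i, (γ i : ℝ) * Lg (u i)| ≤ K)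
    (filter_subset _ _) i0 ((2 * K + 1) * (4 * 3 ^ (n i0) * lam (n i0))) (by positivity) (by
      intro u hu
      obtain ⟨c, hc⟩ : ∃ c : ℝ, c = ∑ i ∈ univ.erase i0, (γ i : ℝ) * Lg (u i) := ⟨_, rfl⟩
      have hI := anti_Icc (n i0) (-c / γ i0 - K) (2 * K) (by positivity)
      refine le_trans ?_ hI
      rw [Nat.cast_le]
      refine card_le_card ?_
      intro x hx
      rw [mem_filter, mem_filter] at hx
      rw [mem_filter]
      obtain ⟨hx1, -, hx2⟩ := hx
      rw [← Finset.add_sum_erase univ _ (mem_univ i0)] at hx2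
      have h2 : ∑ i ∈ univ.erase i0, (γ i : ℝ) * Lg (Function.update u i0 x i) = c := by
        rw [hc]
        refine sum_congr rfl fun i hi => ?_
        rw [Function.update_of_ne (ne_of_mem_erase hi)]
      rw [h2, Function.update_self] at hx2
      have h3 : (γ i0 : ℝ) * Lg x + c = γ i0 * (Lg x + c / γ i0) := by field_simp
      rw [h3, abs_mul] at hx2
      have h4 : |Lg x + c / γ i0| ≤ K := by
        refine le_trans ?_ hx2
        exact le_mul_of_one_le_left (abs_nonneg _) hi1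
      rw [abs_le] at h4
      refine ⟨hx1, ?_, ?_⟩
      · rw [neg_div]; linarith [h4.1]
      · rw [neg_div]; linarith [h4.2])
  have h2 : (#(G (n i0)) : ℝ) = 4 * 3 ^ (n i0) := by rw [card_G]; push_cast; ring
  rw [h2] at h1
  have h3 : (0 : ℝ) < 4 * 3 ^ (n i0) := by positivity
  have h4 := lam_le hw (hn i0)
  have h5 : (0 : ℝ) ≤ ∏ i, (#(G (n i)) : ℝ) := prod_nonneg fun i _ => Nat.cast_nonneg _
  have h6 : (((Fintype.piFinset fun i => G (n i)).filter fun u => |∑ i, (γ i : ℝ) * Lg (u i)| ≤ K).card : ℝ) ≤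
      (2 * K + 1) * lam (n i0) * ∏ i, (#(G (n i)) : ℝ) := by
    refine le_of_mul_le_mul_right ?_ h3
    calc _ ≤ _ := h1
      _ = _ := by ring
  refine h6.trans ?_
  refine mul_le_mul_of_nonneg_right ?_ h5
  exact mul_le_mul_of_nonneg_left h4 (by positivity)

/-- if the monomials are well separated, then the largest one dominates the polynomial -/
theorem dominate {N : ℕ} (S : Finset (Fin N →₀ ℕ)) (H : ℕ) (hH : 1 ≤ H) (v : Fin N → ℝ)
    (hv : ∀ i, v i ≠ 0)
    (hsep : ∀ α ∈ S, ∀ β ∈ S, α ≠ β →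
      Real.logb 2 (#S * H) < abs (∑ i, (((α i : ℤ) - (β i : ℤ) : ℤ) : ℝ) * Real.logb 2 (abs (v i))))
    (P : MvPolynomial (Fin N) ℤ) (hP : P.support ⊆ S) (hc : ∀ α, |P.coeff α| ≤ H)
    (α : Fin N →₀ ℕ) (hα : α ∈ P.support) :
    |∏ i, v i ^ α i| ≤ #S * |MvPolynomial.aeval v P| := by
  classical
  obtain ⟨mon, hmon⟩ : ∃ mon : (Fin N →₀ ℕ) → ℝ, mon = fun β => |∏ i, v i ^ β i| := ⟨_, rfl⟩
  have hmonpos : ∀ β, 0 < mon β := by
    intro β
    rw [hmon]
    exact abs_pos.2 (prod_ne_zero_iff.2 fun i _ => pow_ne_zero _ (hv i))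
  have hlog : ∀ β, Real.logb 2 (mon β) = ∑ i, (β i : ℝ) * Real.logb 2 |v i| := by
    intro β
    rw [hmon]
    simp only
    rw [Finset.abs_prod, Real.logb_prod _ _ fun i _ => abs_ne_zero.2 (pow_ne_zero _ (hv i))]
    refine sum_congr rfl fun i _ => ?_
    rw [abs_pow, Real.logb_pow]
  obtain ⟨a, ha, hmax⟩ := Finset.exists_max_image P.support mon ⟨α, hα⟩
  have hSpos : (0 : ℝ) < #S := by
    have : 0 < #S := card_pos.2 ⟨α, hP hα⟩
    exact_mod_cast this
  have hHpos : (0 : ℝ) < H := by exact_mod_cast hH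
  have hdom : ∀ β ∈ P.support, β ≠ a → H * mon β ≤ mon a / #S := by
    intro β hβ hne
    have h1 := hsep a (hP ha) β (hP hβ) (Ne.symm hne)
    have h2 : ∑ i, (((a i : ℤ) - (β i : ℤ) : ℤ) : ℝ) * Real.logb 2 |v i| =
        Real.logb 2 (mon a) - Real.logb 2 (mon β) := by
      rw [hlog, hlog, ← sum_sub_distrib]
      refine sum_congr rfl fun i _ => ?_
      push_cast
      ring
    have h3 : Real.logb 2 (mon β) ≤ Real.logb 2 (mon a) :=
      Real.logb_le_logb_of_le (by norm_num) (hmonpos β) (hmax β hβ)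
    rw [h2, abs_of_nonneg (by linarith)] at h1
    have h4 : Real.logb 2 (#S * H * mon β) < Real.logb 2 (mon a) := by
      rw [Real.logb_mul (by positivity) (hmonpos β).ne']
      linarith
    have h5 := (Real.logb_lt_logb_iff (by norm_num : (1 : ℝ) < 2)
      (mul_pos (by positivity) (hmonpos β)) (hmonpos a)).1 h4
    rw [le_div_iff₀ hSpos]
    linarith
  have haeval : MvPolynomial.aeval v P = ∑ β ∈ P.support, ((P.coeff β : ℤ) : ℝ) * ∏ i, v i ^ β i := by
    rw [MvPolynomial.aeval_def, MvPolynomial.eval₂_eq']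
    rfl
  have hsplit : MvPolynomial.aeval v P = ((P.coeff a : ℤ) : ℝ) * ∏ i, v i ^ a i +
      ∑ β ∈ P.support.erase a, ((P.coeff β : ℤ) : ℝ) * ∏ i, v i ^ β i := by
    rw [haeval]
    exact (Finset.add_sum_erase _ (fun β => ((P.coeff β : ℤ) : ℝ) * ∏ i, v i ^ β i) ha).symm
  have hrest : |∑ β ∈ P.support.erase a, ((P.coeff β : ℤ) : ℝ) * ∏ i, v i ^ β i| ≤ (#S - 1) * (mon a / #S) := by
    calc |∑ β ∈ P.support.erase a, ((P.coeff β : ℤ) : ℝ) * ∏ i, v i ^ β i|
        ≤ ∑ β ∈ P.support.erase a, |((P.coeff β : ℤ) : ℝ) * ∏ i, v i ^ β i| := abs_sum_le_sum_abs _ _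
      _ ≤ ∑ β ∈ P.support.erase a, mon a / #S := by
          refine sum_le_sum fun β hβ => ?_
          rw [mem_erase] at hβ
          refine le_trans ?_ (hdom β hβ.2 hβ.1)
          rw [abs_mul]
          have h6 : |((P.coeff β : ℤ) : ℝ)| ≤ H := by exact_mod_cast hc β
          rw [hmon]
          exact mul_le_mul_of_nonneg_right h6 (abs_nonneg _)
      _ = (#(P.support.erase a) : ℝ) * (mon a / #S) := by rw [sum_const, nsmul_eq_mul]
      _ ≤ (#S - 1) * (mon a / #S) := by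
          refine mul_le_mul_of_nonneg_right ?_ (div_nonneg (hmonpos a).le hSpos.le)
          rw [card_erase_of_mem ha, Nat.cast_sub (card_pos.2 ⟨a, ha⟩), Nat.cast_one]
          have : (#P.support : ℝ) ≤ #S := by exact_mod_cast card_le_card hP
          linarith
  have hmain : mon a ≤ |((P.coeff a : ℤ) : ℝ) * ∏ i, v i ^ a i| := by
    rw [abs_mul]
    have h7 : (1 : ℝ) ≤ |((P.coeff a : ℤ) : ℝ)| := by
      have : 1 ≤ |P.coeff a| := Int.one_le_abs (MvPolynomial.mem_support_iff.1 ha)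
      exact_mod_cast this
    rw [hmon]
    exact le_mul_of_one_le_left (abs_nonneg _) h7
  have h8 : mon a / #S ≤ |MvPolynomial.aeval v P| := by
    rw [hsplit]
    have h9 := abs_sub_abs_le_abs_add (((P.coeff a : ℤ) : ℝ) * ∏ i, v i ^ a i)
      (∑ β ∈ P.support.erase a, ((P.coeff β : ℤ) : ℝ) * ∏ i, v i ^ β i)
    have h10 : (#S - 1) * (mon a / #S) = mon a - mon a / #S := by field_simp
    linarith
  have h11 : mon α ≤ mon a := hmax α hα
  rw [div_le_iff₀ hSpos] at h8
  rw [hmon] at h11 h8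
  simp only at h11 h8
  linarith

end Run7.h867.AM
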