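import Mathlib
import Pool.Agent.Run7.h867.AM.Tuple

/-!
# Typical tuples of alternating multiple zeta values (helper867)
-/

set_option autoImplicit false

namespace Run7.h867.AM

open Finset Filter Topology

/-- the tuple `u` has a polynomial with support in `S`, coefficients at most `H` in absolute value, and a
small value -/
def Bad {N : ℕ} (S : Finset (Fin N →₀ ℕ)) (H : ℕ) (u : Fin N → Ix) : Prop :=
  ∃ P : MvPolynomial (Fin N) ℤ, P.support ⊆ S ∧ (∀ α, |P.coeff α| ≤ H) ∧
    ∃ α ∈ P.support, (#S : ℝ) * |MvPolynomial.aeval (fun i => val (u i)) P| < |∏ i, val (u i) ^ α i|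

open Classical in
theorem main_count {N : ℕ} (n : Fin N → ℕ) (w : ℕ) (hw : 2 ≤ w) (hn : ∀ i, w ≤ n i + 2)
    (S : Finset (Fin N →₀ ℕ)) (H : ℕ) (hH : 1 ≤ H) (hS : S.Nonempty) :
    (((Fintype.piFinset fun i => G (n i)).filter fun u => Bad S H u).card : ℝ) ≤
    ((#S).choose 2 : ℝ) * ((2 * Real.logb 2 (#S * H) + 1) * √(3 / (w : ℝ)) * ∏ i, (#(G (n i)) : ℝ)) := by
  obtain ⟨K, hK⟩ : ∃ K : ℝ, K = Real.logb 2 (#S * H) := ⟨_, rfl⟩
  have hK0 : 0 ≤ K := by
    rw [hK]
    refine Real.logb_nonneg (by norm_num) ?_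
    have h1 : 1 ≤ #S * H := Nat.one_le_iff_ne_zero.2 (Nat.mul_ne_zero (card_pos.2 hS).ne' (by omega))
    exact_mod_cast h1
  rw [← hK]
  obtain ⟨U, hU⟩ : ∃ U : Finset (Fin N → Ix), U = Fintype.piFinset fun i => G (n i) := ⟨_, rfl⟩
  rw [← hU]
  obtain ⟨E, hE⟩ : ∃ E : Finset (Fin N →₀ ℕ) → Finset (Fin N → Ix), E = fun T => U.filter fun u =>
      ∃ α ∈ T, ∃ β ∈ T, α ≠ β ∧ |∑ i, (((α i : ℤ) - (β i : ℤ) : ℤ) : ℝ) * Lg (u i)| ≤ K := ⟨_, rfl⟩
  have h1 : (U.filter fun u => Bad S H u) ⊆ (S.powersetCard 2).biUnion E := by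
    intro u hu
    rw [mem_filter] at hu
    obtain ⟨hu1, P, hP, hc, α, hα, hlt⟩ := hu
    rw [mem_biUnion]
    by_contra hno
    push Not at hno
    have hv : ∀ i, val (u i) ≠ 0 := by
      intro i
      rw [hU] at hu1
      exact val_ne (Fintype.mem_piFinset.1 hu1 i)
    refine absurd (dominate S H hH (fun i => val (u i)) hv ?_ P hP hc α hα) (not_le.2 hlt)
    intro a ha b hb hab
    have h2 := hno {a, b} (by
      rw [mem_powersetCard]
      refine ⟨?_, card_pair hab⟩
      intro x hx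
      rw [mem_insert, mem_singleton] at hx
      rcases hx with rfl | rfl
      · exact ha
      · exact hb)
    rw [hE, mem_filter] at h2
    rw [← hK]
    by_contra h3
    rw [not_lt] at h3
    exact h2 ⟨hu1, a, by simp, b, by simp, hab, h3⟩
  have h2 : ∀ T ∈ S.powersetCard 2, (#(E T) : ℝ) ≤ (2 * K + 1) * √(3 / (w : ℝ)) * ∏ i, (#(G (n i)) : ℝ) := by
    intro T hT
    rw [mem_powersetCard] at hT
    obtain ⟨a, b, hab, rfl⟩ := card_eq_two.1 hT.2
    refine le_trans ?_ (pair_bad n (fun i => (a i : ℤ) - (b i : ℤ)) ?_ K hK0 w hw hn)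
    · rw [Nat.cast_le]
      refine card_le_card ?_
      intro u hu
      rw [hE, mem_filter] at hu
      rw [mem_filter, ← hU]
      obtain ⟨hu1, α, hα, β, hβ, hne, hle⟩ := hu
      refine ⟨hu1, ?_⟩
      rw [mem_insert, mem_singleton] at hα hβ
      rcases hα with rfl | rfl <;> rcases hβ with rfl | rfl
      · exact absurd rfl hne
      · exact hle
      · have h4 : ∑ i, (((β i : ℤ) - (α i : ℤ) : ℤ) : ℝ) * Lg (u i) =
            -∑ i, (((α i : ℤ) - (β i : ℤ) : ℤ) : ℝ) * Lg (u i) := by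
          rw [← sum_neg_distrib]
          refine sum_congr rfl fun i _ => ?_
          push_cast
          ring
        rw [h4, abs_neg]
        exact hle
      · exact absurd rfl hne
    · intro h
      apply hab
      ext i
      have := congrFun h i
      simp only [Pi.zero_apply] at this
      omega
  calc ((U.filter fun u => Bad S H u).card : ℝ) ≤ ∑ T ∈ S.powersetCard 2, (#(E T) : ℝ) := by
        exact_mod_cast (card_le_card h1).trans card_biUnion_le
    _ ≤ ∑ T ∈ S.powersetCard 2, (2 * K + 1) * √(3 / (w : ℝ)) * ∏ i, (#(G (n i)) : ℝ) := sum_le_sum h2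
    _ = _ := by rw [sum_const, card_powersetCard, nsmul_eq_mul]

end Run7.h867.AM
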